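import Pool.Agent.W2helper34.GT.Comp
import Mathlib.AlgebraicGeometry.EllipticCurve.Affine.Point

/-!
# Examples of algebras with a degree function
-/

set_option autoImplicit false
set_option linter.unusedSectionVars false

namespace Pool.Agent.W2helper34.GT

open Polynomial
open scoped Polynomial.Bivariate

/-- polynomial rings with the total degree -/
noncomputable def degMv (K : Type) [Field K] (σ : Type) [Finite σ] : DegO K (MvPolynomial σ K) where
  deg p := p.totalDegree
  mul a b ha hb := MvPolynomial.totalDegree_mul_of_isDomain ha hb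
  add a b _ _ _ := MvPolynomial.totalDegree_add a b
  fin m := ⟨MvPolynomial.restrictTotalDegree σ K m, by
    unfold FiniteDimensional
    infer_instance, fun a _ h => (MvPolynomial.mem_restrictTotalDegree σ m a).mpr h⟩

section W

open WeierstrassCurve.Affine

variable {K : Type} [Field K] (W : WeierstrassCurve.Affine K)

theorem W_finiteType : Algebra.FiniteType K W.CoordinateRing := inferInstance

theorem W_dom : IsDomain W.CoordinateRing := inferInstance

theorem W_norm_ne {a : W.CoordinateRing} (ha : a ≠ 0) : Algebra.norm K[X] a ≠ 0 := by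
  obtain ⟨p, q, rfl⟩ := CoordinateRing.exists_smul_basis_eq a
  intro h
  have h1 := CoordinateRing.degree_norm_smul_basis (W' := W) p q
  rw [h, degree_zero] at h1
  apply ha
  have h2 : p = 0 := by
    by_contra hp
    have := degree_eq_natDegree hp
    rw [this] at h1
    have h3 := le_max_left (2 • ((p.natDegree : ℕ) : WithBot ℕ)) (2 • q.degree + 3)
    rw [← h1, le_bot_iff] at h3
    rw [two_nsmul] at h3
    exact absurd h3 (by exact WithBot.coe_ne_bot (a := p.natDegree + p.natDegree))
  have h2' : q = 0 := by
    by_contra hq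
    have := degree_eq_natDegree hq
    rw [this] at h1
    have h3 := le_max_right (2 • p.degree) (2 • ((q.natDegree : ℕ) : WithBot ℕ) + 3)
    rw [← h1, le_bot_iff] at h3
    rw [two_nsmul] at h3
    exact absurd h3 (by exact WithBot.coe_ne_bot (a := q.natDegree + q.natDegree + 3))
  rw [h2, h2', zero_smul, zero_smul, zero_add]

/-- the degree of the norm in terms of natural numbers -/
theorem W_le (p q : K[X]) (m : ℕ) :
    (Algebra.norm K[X] (p • (1 : W.CoordinateRing) + q • CoordinateRing.mk W Y)).natDegree ≤ m ↔
      (p ≠ 0 → 2 * p.natDegree ≤ m) ∧ (q ≠ 0 → 2 * q.natDegree + 3 ≤ m) := by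
  rw [natDegree_le_iff_degree_le, CoordinateRing.degree_norm_smul_basis, max_le_iff]
  have e1 : 2 • p.degree ≤ (m : WithBot ℕ) ↔ (p ≠ 0 → 2 * p.natDegree ≤ m) := by
    by_cases hp : p = 0
    · simp [hp]
    · rw [degree_eq_natDegree hp, two_nsmul]
      have : ((p.natDegree : WithBot ℕ) + p.natDegree) = ((2 * p.natDegree : ℕ) : WithBot ℕ) := by
        push_cast; ring
      rw [this]
      simp only [Nat.cast_le, ne_eq, hp, not_false_eq_true, forall_const]
  have e2 : 2 • q.degree + 3 ≤ (m : WithBot ℕ) ↔ (q ≠ 0 → 2 * q.natDegree + 3 ≤ m) := by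
    by_cases hq : q = 0
    · simp [hq]
    · rw [degree_eq_natDegree hq, two_nsmul]
      have : ((q.natDegree : WithBot ℕ) + q.natDegree) + 3 = ((2 * q.natDegree + 3 : ℕ) : WithBot ℕ) := by
        push_cast; ring
      rw [this]
      simp only [Nat.cast_le, ne_eq, hq, not_false_eq_true, forall_const]
  rw [e1, e2]

theorem W_add (a b : W.CoordinateRing) : (Algebra.norm K[X] (a + b)).natDegree ≤
    max (Algebra.norm K[X] a).natDegree (Algebra.norm K[X] b).natDegree := by
  obtain ⟨p, q, rfl⟩ := CoordinateRing.exists_smul_basis_eq a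
  obtain ⟨p', q', rfl⟩ := CoordinateRing.exists_smul_basis_eq b
  have e : p • (1 : W.CoordinateRing) + q • CoordinateRing.mk W Y +
      (p' • 1 + q' • CoordinateRing.mk W Y) =
      (p + p') • (1 : W.CoordinateRing) + (q + q') • CoordinateRing.mk W Y := by
    rw [add_smul, add_smul, add_add_add_comm]
  rw [e]
  generalize hM : max (Algebra.norm K[X] (p • (1 : W.CoordinateRing) +
    q • CoordinateRing.mk W Y)).natDegree
    (Algebra.norm K[X] (p' • (1 : W.CoordinateRing) + q' • CoordinateRing.mk W Y)).natDegree = M
  have h1 := (W_le W p q M).mp (hM ▸ le_max_left _ _)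
  have h2 := (W_le W p' q' M).mp (hM ▸ le_max_right _ _)
  rw [W_le]
  constructor
  · intro h
    have h3 := natDegree_add_le p p'
    by_cases hp : p = 0
    · subst hp
      rw [zero_add] at h ⊢
      exact h2.1 h
    by_cases hp' : p' = 0
    · subst hp'
      rw [add_zero] at h ⊢
      exact h1.1 h
    have h4 := h1.1 hp
    have h5 := h2.1 hp'
    omega
  · intro h
    have h3 := natDegree_add_le q q'
    by_cases hp : q = 0
    · subst hp
      rw [zero_add] at h ⊢
      exact h2.2 h
    by_cases hp' : q' = 0
    · subst hp'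
      rw [add_zero] at h ⊢
      exact h1.2 h
    have h4 := h1.2 hp
    have h5 := h2.2 hp'
    omega

theorem W_fin (m : ℕ) : ∃ U : Submodule K W.CoordinateRing, FiniteDimensional K U ∧
    ∀ a : W.CoordinateRing, (Algebra.norm K[X] a).natDegree ≤ m → a ∈ U := by
  let L (y : W.CoordinateRing) : K[X] →ₗ[K] W.CoordinateRing :=
    (LinearMap.toSpanSingleton K[X] W.CoordinateRing y).restrictScalars K
  have hfin : Module.Finite K (degreeLT K (m + 1)) :=
    Module.Finite.equiv (degreeLTEquiv K (m + 1)).symm
  refine ⟨(degreeLT K (m + 1)).map (L 1) ⊔ (degreeLT K (m + 1)).map (L (CoordinateRing.mk W Y)),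
    inferInstance, fun a ha => ?_⟩
  obtain ⟨p, q, rfl⟩ := CoordinateRing.exists_smul_basis_eq a
  have h1 := (W_le W p q m).mp ha
  refine Submodule.add_mem_sup (Submodule.mem_map_of_mem (f := L 1) ?_)
    (Submodule.mem_map_of_mem (f := L (CoordinateRing.mk W Y)) ?_)
  · rw [mem_degreeLT]
    by_cases hp : p = 0
    · rw [hp, degree_zero]
      exact WithBot.bot_lt_coe _
    · rw [degree_eq_natDegree hp]
      have := h1.1 hp
      exact_mod_cast (by omega : p.natDegree < m + 1)
  · rw [mem_degreeLT]
    by_cases hp : q = 0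
    · rw [hp, degree_zero]
      exact WithBot.bot_lt_coe _
    · rw [degree_eq_natDegree hp]
      have := h1.2 hp
      exact_mod_cast (by omega : q.natDegree < m + 1)

/-- coordinate rings of Weierstrass curves -/
noncomputable def degW : DegO K W.CoordinateRing where
  deg a := (Algebra.norm K[X] a).natDegree
  mul a b ha hb := by
    rw [map_mul, natDegree_mul (W_norm_ne W ha) (W_norm_ne W hb)]
  add a b _ _ _ := W_add W a b
  fin m := by
    obtain ⟨U, hU, h⟩ := W_fin W m
    exact ⟨U, hU, fun a _ ha => h a ha⟩

end W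

end Pool.Agent.W2helper34.GT
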