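import Pool.Agent.W2helper34.GT.Lat

/-!
# Linear groups with small composition factors
-/

set_option autoImplicit false
set_option linter.unusedSectionVars false

namespace Pool.Agent.W2helper34.GT

open Pool.Agent.Y110.FJ (ClosedE)
open scoped commutatorElement

/-! ### solvable extensions -/

section ext

variable {C : ∀ (G : Type) [Group G], Prop}

theorem solv_sup {G : Type} [Group G] (N : Subgroup G) [N.Normal] [Group.IsSolvable N] (g : G) :
    Group.IsSolvable ↥(N ⊔ Subgroup.zpowers g) := by
  let H := N ⊔ Subgroup.zpowers g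
  let Z : Subgroup (G ⧸ N) := Subgroup.zpowers (QuotientGroup.mk' N g)
  have hmem : ∀ h : H, QuotientGroup.mk' N h ∈ Z := by
    intro h
    have h1 : H.map (QuotientGroup.mk' N) ≤ Z := by
      rw [Subgroup.map_sup]
      refine sup_le ?_ ?_
      · rw [QuotientGroup.map_mk'_self]
        exact bot_le
      · rw [MonoidHom.map_zpowers]
    exact h1 ⟨h, h.2, rfl⟩
  let φ : H →* Z := ((QuotientGroup.mk' N).comp H.subtype).codRestrict Z hmem
  have hZ : Group.IsSolvable Z := by
    have : IsMulCommutative Z := inferInstance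
    exact Group.isSolvable_of_comm (fun a b => by
      have := mul_comm' a b
      exact this)
  refine Group.isSolvable_of_ker_le_range (Subgroup.inclusion (le_sup_left : N ≤ H)) φ ?_
  intro h hh
  have h1 : QuotientGroup.mk' N (h : G) = 1 := congrArg Subtype.val hh
  have h2 : (h : G) ∈ N := (QuotientGroup.eq_one_iff _).mp h1
  exact ⟨⟨h, h2⟩, rfl⟩

/-- extensions with solvable kernel -/
theorem solv_ext (hC : ClosedE C) (hS : ∀ (G : Type) [Group G], Group.IsSolvable G → C G) {G : Type}
    [Group G] (N : Subgroup G) [N.Normal] (hN : Group.IsSolvable N) (hQ : C (G ⧸ N)) : C G :=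
  Pool.Agent.Y529.FJ.t_ext C hC G N (hS _ hN) hQ fun g _ => hS _ (solv_sup N g)

theorem C_congr (hC : ClosedE C) {G H : Type} [Group G] [Group H] (e : G ≃* H) (h : C H) : C G :=
  hC.base.of_injective _ _ e.toMonoidHom e.injective h

theorem C_quot_of_hom (hC : ClosedE C) {G P : Type} [Group G] [Group P] (N : Subgroup G) [N.Normal]
    (f : G →* P) (hP : C P) (hN : ∀ n ∈ N, f n = 1) (hf : ∀ g, f g = 1 → g ∈ N) : C (G ⧸ N) := by
  refine hC.base.of_injective _ _ (QuotientGroup.lift N f hN) ?_ hP
  rw [injective_iff_map_eq_one]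
  intro x hx
  obtain ⟨g, rfl⟩ := QuotientGroup.mk_surjective x
  exact (QuotientGroup.eq_one_iff g).mpr (hf g hx)

theorem C_quot_inf (hC : ClosedE C) {G : Type} [Group G] (A B : Subgroup G) [A.Normal] [B.Normal]
    (hA : C (G ⧸ A)) (hB : C (G ⧸ B)) : C (G ⧸ (A ⊓ B)) := by
  refine C_quot_of_hom hC (A ⊓ B) ((QuotientGroup.mk' A).prod (QuotientGroup.mk' B))
    (hC.base.prod _ _ hA hB) ?_ ?_
  · intro n hn
    exact Prod.ext ((QuotientGroup.eq_one_iff n).mpr hn.1) ((QuotientGroup.eq_one_iff n).mpr hn.2)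
  · intro g hg
    exact ⟨(QuotientGroup.eq_one_iff g).mp (congrArg Prod.fst hg),
      (QuotientGroup.eq_one_iff g).mp (congrArg Prod.snd hg)⟩

end ext

/-! ### flags -/

section flag

variable {F V G : Type} [Field F] [AddCommGroup V] [Module F V] [Group G]
  (ρ : G →* Module.End F V) (W : ℕ → Submodule F V)

/-- the action on a subspace -/
def resW (A : Submodule F V) (hA : ∀ g, ∀ x ∈ A, ρ g x ∈ A) : G →* Module.End F A where
  toFun g := (ρ g).restrict (hA g)
  map_one' := by
    apply LinearMap.ext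
    intro x
    apply Subtype.ext
    show (ρ 1) x = x
    rw [map_one]
    rfl
  map_mul' g h := by
    apply LinearMap.ext
    intro x
    apply Subtype.ext
    show (ρ (g * h)) x = (ρ g) ((ρ h) x)
    rw [map_mul]
    rfl

/-- the factor `B / (A ∩ B)` -/
abbrev Fac (A B : Submodule F V) : Type := ↥B ⧸ A.submoduleOf B

/-- the action on a factor -/
def facH (A B : Submodule F V) (hA : ∀ g, ∀ x ∈ A, ρ g x ∈ A) (hB : ∀ g, ∀ x ∈ B, ρ g x ∈ B) :
    G →* Module.End F (Fac A B) where
  toFun g := Submodule.mapQ _ _ ((ρ g).restrict (hB g)) (by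
    intro x hx
    exact hA g _ hx)
  map_one' := by
    apply LinearMap.ext
    intro x
    obtain ⟨x, rfl⟩ := Submodule.Quotient.mk_surjective _ x
    show Submodule.Quotient.mk (((ρ 1).restrict (hB 1)) x) = _
    congr 1
    apply Subtype.ext
    show (ρ 1) x = x
    rw [map_one]
    rfl
  map_mul' g h := by
    apply LinearMap.ext
    intro x
    obtain ⟨x, rfl⟩ := Submodule.Quotient.mk_surjective _ x
    show Submodule.Quotient.mk (((ρ (g * h)).restrict (hB (g * h))) x) =
      Submodule.Quotient.mk (((ρ g).restrict (hB g)) (((ρ h).restrict (hB h)) x))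
    congr 1
    apply Subtype.ext
    show (ρ (g * h)) x = (ρ g) ((ρ h) x)
    rw [map_mul]
    rfl

theorem facH_one {A B : Submodule F V} {hA : ∀ g, ∀ x ∈ A, ρ g x ∈ A}
    {hB : ∀ g, ∀ x ∈ B, ρ g x ∈ B} {g : G} (h : facH ρ A B hA hB g = 1) (x : V) (hx : x ∈ B) :
    ρ g x - x ∈ A := by
  have h1 := LinearMap.congr_fun h (Submodule.Quotient.mk (⟨x, hx⟩ : B))
  have h2 : Submodule.Quotient.mk (p := A.submoduleOf B) (((ρ g).restrict (hB g)) ⟨x, hx⟩) =
    Submodule.Quotient.mk (⟨x, hx⟩ : B) := h1
  rw [Submodule.Quotient.eq] at h2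
  exact h2

/-- a group which acts trivially on the factors of a flag is solvable -/
theorem flag_solvable (hρ : Function.Injective ρ) (k : ℕ) (h0 : W 0 = ⊥) (hk : W k = ⊤)
    (hW : ∀ i g, ∀ x ∈ W i, ρ g x ∈ W i)
    (ht : ∀ i < k, ∀ g, ∀ x ∈ W (i + 1), ρ g x - x ∈ W i) : Group.IsSolvable G := by
  refine ⟨k, ?_⟩
  have key : ∀ i ≤ k, ∀ g ∈ derivedSeries G i, ∀ x ∈ W i, ρ g x = x := by
    intro i
    induction i with
    | zero =>
      intro _ g _ x hx
      rw [h0, Submodule.mem_bot] at hx
      rw [hx, map_zero]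
    | succ i ih =>
      intro hi
      have ih' := ih (by omega)
      let S : Subgroup G :=
        { carrier := {g | ∀ x ∈ W (i + 1), ρ g x = x}
          one_mem' := fun x _ => by rw [map_one]; rfl
          mul_mem' := by
            intro a b ha hb x hx
            rw [map_mul]
            show ρ a (ρ b x) = x
            rw [hb x hx, ha x hx]
          inv_mem' := by
            intro a ha x hx
            have h1 : ρ a⁻¹ (ρ a x) = x := by
              have : ρ (a⁻¹ * a) x = x := by rw [inv_mul_cancel, map_one]; rfl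
              rwa [map_mul] at this
            rwa [ha x hx] at h1 }
      have hle : derivedSeries G (i + 1) ≤ S := by
        rw [derivedSeries_succ, Subgroup.commutator_le]
        intro a ha b hb x hx
        -- `a b` and `b a` agree on `W (i + 1)`
        have hab : ∀ a ∈ derivedSeries G i, ∀ b ∈ derivedSeries G i, ∀ x ∈ W (i + 1),
            ρ (a * b) x = x + (ρ a x - x) + (ρ b x - x) := by
          intro a ha b _ x hx
          have h1 := ih' a ha _ (ht i (by omega) b x hx)
          have h2 : ρ (a * b) x = ρ a (x + (ρ b x - x)) := by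
            rw [map_mul]
            show ρ a (ρ b x) = _
            congr 1
            abel
          rw [h2, map_add, h1]
          abel
        have hcomm : ∀ x ∈ W (i + 1), ρ (a * b) x = ρ (b * a) x := by
          intro x hx
          rw [hab a ha b hb x hx, hab b hb a ha x hx]
          abel
        have e : ⁅a, b⁆ = (a * b) * (b * a)⁻¹ := by
          rw [commutatorElement_def]; group
        rw [e, map_mul]
        show ρ (a * b) (ρ (b * a)⁻¹ x) = x
        rw [hcomm _ (hW _ _ x hx)]
        have : ρ ((b * a) * (b * a)⁻¹) x = x := by rw [mul_inv_cancel, map_one]; rfl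
        rwa [map_mul] at this
      exact fun g hg x hx => hle hg x hx
  rw [eq_bot_iff]
  intro g hg
  rw [Subgroup.mem_bot]
  apply hρ
  rw [map_one]
  apply LinearMap.ext
  intro x
  exact key k le_rfl g hg x (hk ▸ Submodule.mem_top)

end flag

/-! ### the factors -/

section factors

variable {K O F : Type} [Field K] [CommRing O] [IsDomain O] [Algebra K O] [Algebra.FiniteType K O]
  [Field F] [Algebra O F] [IsFractionRing O F] [Algebra K F] [IsScalarTower K O F]
  {C : ∀ (G : Type) [Group G], Prop}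

/-- groups with finite dimensional span -/
theorem K_finite (hC : ClosedE C) (hK : ∀ n, C (GL (Fin n) K)) {R : Type} [Ring R] [Algebra K R]
    {G : Type} [Group G] (τ : G →* R)
    (hfin : Module.Finite K (Submodule.span K (Set.range τ))) (N : Subgroup G) [N.Normal]
    (hN : ∀ g, g ∈ N ↔ τ g = 1) : C (G ⧸ N) := by
  let A := Submodule.span K (Set.range τ)
  have hA : ∀ g, ∀ a ∈ A, τ g * a ∈ A := by
    intro g a ha
    induction ha using Submodule.span_induction with
    | mem a ha =>
      obtain ⟨h, rfl⟩ := ha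
      exact Submodule.subset_span ⟨g * h, map_mul τ g h⟩
    | zero => rw [mul_zero]; exact A.zero_mem
    | add a b _ _ ha hb => rw [mul_add]; exact A.add_mem ha hb
    | smul r a _ ha => rw [mul_smul_comm]; exact A.smul_mem r ha
  let σ : G →* Module.End K A :=
    { toFun := fun g => (LinearMap.mulLeft K (τ g)).restrict (hA g)
      map_one' := by
        apply LinearMap.ext
        intro x
        apply Subtype.ext
        show τ 1 * x = x
        rw [map_one, one_mul]
      map_mul' := by
        intro g h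
        apply LinearMap.ext
        intro x
        apply Subtype.ext
        show τ (g * h) * x = τ g * (τ h * x)
        rw [map_mul, mul_assoc] }
  obtain ⟨n, f, hf⟩ := exists_GL σ
  obtain ⟨n, f, hf, hf'⟩ : ∃ (n : ℕ) (f : G →* GL (Fin n) K), (∀ g, f g = 1 → σ g = 1) ∧
      (∀ g, τ g = 1 → f g = 1) := by
    let b := Module.finBasis K A
    let m : Module.End K A →* Matrix (Fin (Module.finrank K A)) (Fin (Module.finrank K A)) K :=
      (LinearMap.toMatrixAlgEquiv b : Module.End K A ≃ₐ[K] _)
    refine ⟨Module.finrank K A, (m.comp σ).toHomUnits, fun g hg => ?_, fun g hg => ?_⟩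
    · have h1 := congrArg Units.val hg
      have h2 : LinearMap.toMatrixAlgEquiv b (σ g) = 1 := h1
      exact (LinearMap.toMatrixAlgEquiv b).injective (h2.trans (map_one _).symm)
    · apply Units.ext
      show LinearMap.toMatrixAlgEquiv b (σ g) = 1
      have : σ g = 1 := by
        apply LinearMap.ext
        intro x
        apply Subtype.ext
        show τ g * x = x
        rw [hg, one_mul]
      rw [this, map_one]
  refine C_quot_of_hom hC N f (hK n) (fun g hg => hf' g ((hN g).mp hg)) fun g hg => ?_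
  rw [hN]
  have h1 := LinearMap.congr_fun (hf g hg) ⟨τ 1, Submodule.subset_span ⟨1, rfl⟩⟩
  have h2 : τ g * τ 1 = τ 1 := congrArg Subtype.val h1
  rwa [map_one, mul_one] at h2

/-- the image of `G` lies in the span of finitely many endomorphisms over `K` -/
def KFin (K : Type) {F Q G : Type} [Field K] [Field F] [Algebra K F] [AddCommGroup Q] [Module F Q]
    (τ : G → Module.End F Q) : Prop :=
  ∃ T : Finset (Module.End F Q), ∀ g, ∃ κ : Module.End F Q → K,
    τ g = ∑ t ∈ T, algebraMap K F (κ t) • t

theorem quotK (hC : ClosedE C) (hK : ∀ n, C (GL (Fin n) K)) {Q : Type} [AddCommGroup Q] [Module F Q]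
    {G : Type} [Group G] (τ : G →* Module.End F Q) (h : KFin K τ) (N : Subgroup G) [N.Normal]
    (hN : ∀ g, g ∈ N ↔ τ g = 1) : C (G ⧸ N) := by
  let _ : Algebra K (Module.End F Q) :=
    ((algebraMap F (Module.End F Q)).comp (algebraMap K F)).toAlgebra' (fun c x =>
      Algebra.commutes (algebraMap K F c) x)
  have hsm : ∀ (c : K) (x : Module.End F Q), c • x = algebraMap K F c • x := by
    intro c x
    have e : c • x = algebraMap K (Module.End F Q) c * x := Algebra.smul_def c x
    rw [e, Algebra.smul_def]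
    rfl
  obtain ⟨T, hT⟩ := h
  refine K_finite hC hK τ ?_ N hN
  have h1 : Submodule.span K (Set.range τ) ≤ Submodule.span K (T : Set (Module.End F Q)) := by
    rw [Submodule.span_le]
    rintro _ ⟨g, rfl⟩
    obtain ⟨κ, hκ⟩ := hT g
    rw [hκ]
    refine Submodule.sum_mem _ fun t ht => ?_
    rw [← hsm]
    exact Submodule.smul_mem _ _ (Submodule.subset_span ht)
  have h2 : Module.Finite K (Submodule.span K (T : Set (Module.End F Q))) :=
    Module.Finite.span_finset K T
  exact Submodule.finiteDimensional_of_le h1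

theorem quot1 (hS : ∀ (G : Type) [Group G], Group.IsSolvable G → C G) {Q : Type} [AddCommGroup Q]
    [Module F Q] [Module.Finite F Q] (hdim : Module.finrank F Q ≤ 1) {G : Type} [Group G]
    (τ : G →* Module.End F Q) (N : Subgroup G) [N.Normal]
    (hN : ∀ g, g ∈ N ↔ τ g = 1) : C (G ⧸ N) := by
  apply hS
  apply Group.isSolvable_of_comm
  intro a b
  obtain ⟨a, rfl⟩ := QuotientGroup.mk_surjective a
  obtain ⟨b, rfl⟩ := QuotientGroup.mk_surjective b
  rw [← QuotientGroup.mk_mul, ← QuotientGroup.mk_mul, QuotientGroup.eq, hN]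
  obtain ⟨v, hv⟩ := finrank_le_one_iff.mp hdim
  have hcomm : ∀ f f' : Module.End F Q, f * f' = f' * f := by
    intro f f'
    apply LinearMap.ext
    intro w
    obtain ⟨c, rfl⟩ := hv w
    obtain ⟨r, hr⟩ := hv (f v)
    obtain ⟨r', hr'⟩ := hv (f' v)
    show f (f' (c • v)) = f' (f (c • v))
    rw [map_smul, map_smul, map_smul, map_smul, ← hr, ← hr', map_smul, map_smul, ← hr, ← hr',
      smul_comm r' r v]
  rw [map_mul, hcomm, ← map_mul]
  have e : b * a * (a * b)⁻¹ = b * a * (b⁻¹ * a⁻¹) := by group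
  have e2 : τ (b * a * (a * b)⁻¹) = 1 := by
    rw [e, map_mul, map_mul, hcomm (τ b) (τ a), ← map_mul, ← map_mul]
    have : a * b * (b⁻¹ * a⁻¹) = 1 := by group
    rw [this, map_one]
  exact e2

theorem quot2 (d : DegO K O) (hC : ClosedE C) (hK : ∀ n, C (GL (Fin n) K)) {Q : Type}
    [AddCommGroup Q] [Module F Q] [Module O Q] [IsScalarTower O F Q]
    (hdim : Module.finrank F Q = 2) {G : Type} [Group G] (τ : G →* Module.End F Q)
    (L : Submodule O Q) (hL : L.FG) (hsp : ∀ v : Q, ∃ t : O, t ≠ 0 ∧ t • v ∈ L)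
    (hτ : ∀ g, ∀ x ∈ L, τ g x ∈ L) (N : Subgroup G) [N.Normal]
    (hN : ∀ g, g ∈ N ↔ τ g = 1) : C (G ⧸ N) := by
  have hfin : Module.Finite F Q := Module.finite_of_finrank_pos (by omega)
  let b : Module.Basis (Fin 2) F Q := Module.finBasisOfFinrankEq F Q hdim
  let m : Module.End F Q →* Matrix (Fin 2) (Fin 2) F :=
    (LinearMap.toMatrixAlgEquiv b : Module.End F Q ≃ₐ[F] _)
  have hm : ∀ f, m f = 1 → f = 1 := fun f hf =>
    (LinearMap.toMatrixAlgEquiv b).injective (Eq.trans hf (map_one _).symm)
  let ρ₀ : G →* GF F := (m.comp τ).toHomUnits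
  have hρ₀ : ∀ g, ρ₀ g = 1 ↔ τ g = 1 := by
    intro g
    constructor
    · intro h
      exact hm _ (congrArg Units.val h)
    · intro h
      apply Units.ext
      show m (τ g) = 1
      rw [h, map_one]
  let ρ : G ⧸ N →* GF F := QuotientGroup.lift N ρ₀ (fun g hg => (hρ₀ g).mpr ((hN g).mp hg))
  have hinj : Function.Injective ρ := by
    rw [injective_iff_map_eq_one]
    intro x hx
    obtain ⟨g, rfl⟩ := QuotientGroup.mk_surjective x
    exact (QuotientGroup.eq_one_iff g).mpr ((hN g).mpr ((hρ₀ g).mp hx))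
  let φ : Q →ₗ[O] (Fin 2 → F) := (b.equivFun : Q →ₗ[F] (Fin 2 → F)).restrictScalars O
  refine lattice2 d hC hK (L.map φ) (hL.map φ) ?_ ρ hinj ?_
  · rw [eq_top_iff]
    intro v _
    obtain ⟨t, ht, htL⟩ := hsp (b.equivFun.symm v)
    have h1 : t • v ∈ L.map φ := by
      refine ⟨_, htL, ?_⟩
      show b.equivFun (t • b.equivFun.symm v) = t • v
      have : (t • b.equivFun.symm v : Q) = (algebraMap O F t) • b.equivFun.symm v := by
        rw [algebraMap_smul]
      rw [this, map_smul, LinearEquiv.apply_symm_apply, algebraMap_smul]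
    have h2 : v = (algebraMap O F t)⁻¹ • (t • v) := by
      rw [← algebraMap_smul F t v, smul_smul, inv_mul_cancel₀ (am_ne ht), one_smul]
    rw [h2]
    exact Submodule.smul_mem _ _ (Submodule.subset_span h1)
  · intro x
    obtain ⟨g, rfl⟩ := QuotientGroup.mk_surjective x
    rintro _ ⟨y, hy, rfl⟩
    refine ⟨τ g y, hτ g y hy, ?_⟩
    show b.equivFun (τ g y) = (LinearMap.toMatrixAlgEquiv b (τ g)).mulVec (b.equivFun y)
    exact (LinearMap.toMatrix_mulVec_repr b b (τ g) y).symm

/-- the factor `B / A` of an invariant flag -/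
theorem quot_fac (d : DegO K O) (hC : ClosedE C) (hK : ∀ n, C (GL (Fin n) K))
    (hS : ∀ (G : Type) [Group G], Group.IsSolvable G → C G) {V : Type} [AddCommGroup V] [Module F V]
    [Module O V] [IsScalarTower O F V] [Module.Finite F V] (L : Submodule O V) (hL : L.FG)
    (hsp : ∀ v : V, ∃ t : O, t ≠ 0 ∧ t • v ∈ L) {G : Type} [Group G] (ρ : G →* Module.End F V)
    (hρ : ∀ g, ∀ x ∈ L, ρ g x ∈ L) (A B : Submodule F V)
    (hA : ∀ g, ∀ x ∈ A, ρ g x ∈ A) (hB : ∀ g, ∀ x ∈ B, ρ g x ∈ B)
    (h : Module.finrank F (Fac A B) ≤ 2 ∨ KFin K (facH ρ A B hA hB)) :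
    C (G ⧸ (facH ρ A B hA hB).ker) := by
  have hN : ∀ g, g ∈ (facH ρ A B hA hB).ker ↔ facH ρ A B hA hB g = 1 := fun g => Iff.rfl
  rcases h with h | h
  swap
  · exact quotK hC hK (facH ρ A B hA hB) h _ hN
  by_cases h1 : Module.finrank F (Fac A B) ≤ 1
  · exact quot1 hS h1 (facH ρ A B hA hB) _ hN
  have h2 : Module.finrank F (Fac A B) = 2 := by omega
  have hOn : IsNoetherianRing O := Algebra.FiniteType.isNoetherianRing K O
  have hLf : Module.Finite O L := Module.Finite.iff_fg.mpr hL
  let LB : Submodule O B := L.comap (B.subtype.restrictScalars O)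
  have hLB : LB.FG := by
    let j : LB →ₗ[O] L :=
      { toFun := fun x => ⟨(x : B), x.2⟩
        map_add' := fun _ _ => rfl
        map_smul' := fun _ _ => rfl }
    have hj : Function.Injective j := by
      intro x y hxy
      have h3 : ((j x : L) : V) = (j y : L) := by rw [hxy]
      exact Subtype.ext (Subtype.ext h3)
    exact Module.Finite.iff_fg.mp (Module.Finite.of_injective j hj)
  let π : B →ₗ[O] Fac A B := ((A.submoduleOf B).mkQ).restrictScalars O
  refine quot2 d hC hK h2 (facH ρ A B hA hB) (LB.map π) (hLB.map π) ?_ ?_ _ hN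
  · intro v
    obtain ⟨w, rfl⟩ := Submodule.Quotient.mk_surjective _ v
    obtain ⟨t, ht, htL⟩ := hsp (w : V)
    exact ⟨t, ht, t • w, htL, rfl⟩
  · rintro g _ ⟨x, hx, rfl⟩
    exact ⟨((ρ g).restrict (hB g)) x, hρ g _ hx, rfl⟩

/-- **Linear groups with small composition factors.** -/
theorem main_comp (d : DegO K O) (hC : ClosedE C) (hK : ∀ n, C (GL (Fin n) K))
    (hS : ∀ (G : Type) [Group G], Group.IsSolvable G → C G) {V : Type} [AddCommGroup V] [Module F V]
    [Module O V] [IsScalarTower O F V] [Module.Finite F V] (L : Submodule O V) (hL : L.FG)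
    (hsp : ∀ v : V, ∃ t : O, t ≠ 0 ∧ t • v ∈ L) {G : Type} [Group G] (ρ : G →* Module.End F V)
    (hinj : Function.Injective ρ)
    (hρ : ∀ g, ∀ x ∈ L, ρ g x ∈ L) (k : ℕ) (W : ℕ → Submodule F V)
    (h0 : W 0 = ⊥) (hk : W k = ⊤) (hW : ∀ i g, ∀ x ∈ W i, ρ g x ∈ W i)
    (h : ∀ i < k, Module.finrank F (Fac (W i) (W (i + 1))) ≤ 2 ∨
      KFin K (facH ρ (W i) (W (i + 1)) (hW i) (hW (i + 1)))) : C G := by
  -- the quotient by the intersection of the kernels
  have key : ∀ m ≤ k, ∃ (N : Subgroup G) (_ : N.Normal), C (G ⧸ N) ∧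
      ∀ g ∈ N, ∀ i < m, facH ρ (W i) (W (i + 1)) (hW i) (hW (i + 1)) g = 1 := by
    intro m
    induction m with
    | zero =>
      intro _
      refine ⟨⊤, inferInstance, ?_, fun g _ i hi => absurd hi (by omega)⟩
      have : Finite (G ⧸ (⊤ : Subgroup G)) := by
        have : Subsingleton (G ⧸ (⊤ : Subgroup G)) := QuotientGroup.subsingleton_quotient_top
        infer_instance
      exact Pool.Agent.Y430.SS.of_finite hC.base _ inferInstance
    | succ m ih =>
      intro hm
      obtain ⟨N, hN, hCN, hNi⟩ := ih (by omega)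
      refine ⟨N ⊓ (facH ρ (W m) (W (m + 1)) (hW m) (hW (m + 1))).ker, inferInstance,
        C_quot_inf hC _ _ hCN (quot_fac d hC hK hS L hL hsp ρ hρ _ _ (hW m) (hW (m + 1))
          (h m (by omega))), fun g hg i hi => ?_⟩
      rcases Nat.lt_succ_iff_lt_or_eq.mp hi with hi | rfl
      · exact hNi g hg.1 i hi
      · exact hg.2
  obtain ⟨N, hN, hCN, hNi⟩ := key k le_rfl
  refine solv_ext hC hS N ?_ hCN
  refine flag_solvable (ρ.comp N.subtype) W ?_ k h0 hk (fun i g x hx => hW i g x hx) ?_
  · exact hinj.comp N.subtype_injective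
  · intro i hi g x hx
    exact facH_one ρ (hNi g g.2 i hi) x hx

end factors

end Pool.Agent.W2helper34.GT
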