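import Pool.Agent.W2helper34.GT.Tree
import Pool.Agent.N24.TR.Tree

/-!
# Groups of `2 × 2` matrices over a field with a discrete valuation
-/

set_option autoImplicit false

namespace Pool.Agent.W2helper34.GT

open Pool.Agent.Y110.FJ (ClosedE)

/-- the elements of the stabilizer of a vertex satisfy `B δ k` for some `k` -/
theorem stab_B {F : Type} [Field F] (δ : Dg F) (v : VV δ) :
    ∃ k : ℤ, ∀ g : GF F, g • v = v → B δ k g := by
  induction v using QuotientGroup.induction_on with
  | H x =>
    obtain ⟨k, hk⟩ : ∃ k : ℤ, B δ k x := by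
      refine ⟨2 * (max (max (δ.D (x 0 0)) (δ.D (x 0 1))) (max (δ.D (x 1 0)) (δ.D (x 1 1)))) -
        dd δ x, ?_⟩
      intro i j hij
      fin_cases i <;> fin_cases j
      all_goals
        simp only [Fin.zero_eta, Fin.mk_one] at *
        omega
    refine ⟨k + 0 + k, fun g hg => ?_⟩
    have h1 : x⁻¹ * (g * x) ∈ HH δ := by
      rw [← QuotientGroup.eq]
      exact hg.symm
    have h2 : B δ (k + 0 + k) (x * (x⁻¹ * (g * x)) * x⁻¹) :=
      B.mul (B.mul hk (mem_HH.mp h1)) hk.inv
    have e : x * (x⁻¹ * (g * x)) * x⁻¹ = g := by group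
    rwa [e] at h2

/-- **Groups of `2 × 2` matrices.** Suppose that for each `k` there is a homomorphism from `G` to a
group in `C` without kernel on the elements `g` with `2 deg g_ij ≤ deg det g + k`. Then `G` is in
`C`. -/
theorem main_tree {C : ∀ (G : Type) [Group G], Prop} (hC : ClosedE C) {F : Type} [Field F]
    (δ : Dg F) {G : Type} [Group G] (ρ : G →* GF F)
    (h : ∀ k : ℤ, ∃ (P : Type) (_ : Group P) (f : G →* P), C P ∧
      ∀ g, B δ k (ρ g) → f g = 1 → g = 1) : C G := by
  let _ : MulAction G (VV δ) := MulAction.compHom (VV δ) ρ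
  refine Pool.Agent.N24.TR.tree_local hC (isTree δ) (fun g u v h => TT_act δ (ρ g) u v h)
    fun v => ?_
  obtain ⟨k, hk⟩ := stab_B δ v
  obtain ⟨P, _, f, hP, hf⟩ := h k
  exact ⟨P, inferInstance, f, hP, fun g hg h1 => hf g (hk _ hg) h1⟩

end Pool.Agent.W2helper34.GT
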