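import Mathlib

/-!
# Degree functions on a field and `2 × 2` matrices

`D : F → ℤ` is minus a discrete valuation (its value at `0` is irrelevant).
-/

set_option autoImplicit false

namespace Pool.Agent.W2helper34.GT

/-- minus a discrete valuation with value group `ℤ` -/
structure Dg (F : Type) [Field F] where
  D : F → ℤ
  mul : ∀ x y : F, x ≠ 0 → y ≠ 0 → D (x * y) = D x + D y
  add : ∀ x y : F, x ≠ 0 → y ≠ 0 → x + y ≠ 0 → D (x + y) ≤ max (D x) (D y)
  pi : ∃ π : F, π ≠ 0 ∧ D π = 1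

variable {F : Type} [Field F] (δ : Dg F)

namespace Dg

theorem one : δ.D 1 = 0 := by
  have := δ.mul 1 1 one_ne_zero one_ne_zero
  rw [mul_one] at this
  omega

theorem neg (x : F) (hx : x ≠ 0) : δ.D (-x) = δ.D x := by
  have h1 := δ.mul (-1) (-1) (by simp) (by simp)
  rw [neg_mul_neg, mul_one, δ.one] at h1
  have h2 := δ.mul (-1) x (by simp) hx
  rw [neg_one_mul] at h2
  omega

theorem inv (x : F) (hx : x ≠ 0) : δ.D x⁻¹ = - δ.D x := by
  have h1 := δ.mul x x⁻¹ hx (inv_ne_zero hx)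
  rw [mul_inv_cancel₀ hx, δ.one] at h1
  omega

/-- twice the degree of `x` is at most `n` -/
def L (x : F) (n : ℤ) : Prop := x ≠ 0 → 2 * δ.D x ≤ n

variable {δ}

theorem L.zero (n : ℤ) : δ.L 0 n := fun h => absurd rfl h

theorem L.mono {x : F} {n m : ℤ} (h : δ.L x n) (hnm : n ≤ m) : δ.L x m := fun hx => (h hx).trans hnm

theorem L.add {x y : F} {n : ℤ} (hx : δ.L x n) (hy : δ.L y n) : δ.L (x + y) n := by
  intro h
  by_cases h1 : x = 0
  · subst h1
    rw [zero_add] at h ⊢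
    exact hy h
  by_cases h2 : y = 0
  · subst h2
    rw [add_zero] at h ⊢
    exact hx h
  have := δ.add x y h1 h2 h
  have := hx h1
  have := hy h2
  omega

theorem L.neg {x : F} {n : ℤ} (hx : δ.L x n) : δ.L (-x) n := by
  intro h
  have h1 : x ≠ 0 := fun h' => h (by rw [h', neg_zero])
  rw [δ.neg x h1]
  exact hx h1

theorem L.sub {x y : F} {n : ℤ} (hx : δ.L x n) (hy : δ.L y n) : δ.L (x - y) n := by
  rw [sub_eq_add_neg]
  exact hx.add hy.neg

theorem L.mul {x y : F} {n m : ℤ} (hx : δ.L x n) (hy : δ.L y m) : δ.L (x * y) (n + m) := by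
  intro h
  have h1 : x ≠ 0 := left_ne_zero_of_mul h
  have h2 : y ≠ 0 := right_ne_zero_of_mul h
  rw [δ.mul x y h1 h2]
  have := hx h1
  have := hy h2
  omega

theorem L.self (x : F) : δ.L x (2 * δ.D x) := fun _ => le_rfl

end Dg

open Matrix

/-- invertible `2 × 2` matrices -/
abbrev GF (F : Type) [Field F] : Type := GL (Fin 2) F

/-- the degree of the determinant -/
def dd (g : GF F) : ℤ := δ.D (g : Matrix (Fin 2) (Fin 2) F).det

theorem det_ne (g : GF F) : (g : Matrix (Fin 2) (Fin 2) F).det ≠ 0 := by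
  have := g.det.ne_zero
  simpa using this

theorem dd_mul (g h : GF F) : dd δ (g * h) = dd δ g + dd δ h := by
  unfold dd
  rw [Units.val_mul, Matrix.det_mul, δ.mul _ _ (det_ne g) (det_ne h)]

theorem dd_one : dd δ (1 : GF F) = 0 := by
  unfold dd
  rw [Units.val_one, Matrix.det_one, δ.one]

theorem dd_inv (g : GF F) : dd δ g⁻¹ = - dd δ g := by
  have h := dd_mul δ g g⁻¹
  rw [mul_inv_cancel, dd_one] at h
  omega

/-- the condition `2 deg g_ij ≤ deg det g + k` -/
def B (k : ℤ) (g : GF F) : Prop := ∀ i j, δ.L (g i j) (dd δ g + k)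

variable {δ}

theorem B.mono {k l : ℤ} {g : GF F} (h : B δ k g) (hkl : k ≤ l) : B δ l g :=
  fun i j => (h i j).mono (by omega)

theorem B.mul {k l : ℤ} {g h : GF F} (hg : B δ k g) (hh : B δ l h) : B δ (k + l) (g * h) := by
  intro i j
  have e : (g * h) i j = g i 0 * h 0 j + g i 1 * h 1 j := by
    show ((g * h : GF F) : Matrix (Fin 2) (Fin 2) F) i j = _
    rw [Units.val_mul, Matrix.mul_apply, Fin.sum_univ_two]
  rw [e, dd_mul]
  exact (((hg i 0).mul (hh 0 j)).add ((hg i 1).mul (hh 1 j))).mono (by omega)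

theorem inv_entry (g : GF F) (i j : Fin 2) : (g⁻¹ : GF F) i j =
    ((g : Matrix (Fin 2) (Fin 2) F).det)⁻¹ * (g : Matrix (Fin 2) (Fin 2) F).adjugate i j := by
  show ((g⁻¹ : GF F) : Matrix (Fin 2) (Fin 2) F) i j = _
  rw [Matrix.coe_units_inv, Matrix.inv_def, Matrix.smul_apply, smul_eq_mul, Ring.inverse_eq_inv']

theorem adj_L {n : ℤ} {A : Matrix (Fin 2) (Fin 2) F} (h : ∀ i j, δ.L (A i j) n) (i j : Fin 2) :
    δ.L (A.adjugate i j) n := by
  rw [Matrix.adjugate_fin_two]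
  fin_cases i <;> fin_cases j
  · exact h 1 1
  · exact (h 0 1).neg
  · exact (h 1 0).neg
  · exact h 0 0

theorem B.inv {k : ℤ} {g : GF F} (hg : B δ k g) : B δ k g⁻¹ := by
  intro i j
  rw [inv_entry, dd_inv]
  have h1 : δ.L (((g : Matrix (Fin 2) (Fin 2) F).det)⁻¹) (-2 * dd δ g) := by
    intro _
    rw [δ.inv _ (det_ne g)]
    unfold dd
    omega
  exact (h1.mul (adj_L hg i j)).mono (by omega)

theorem exists_entry (g : GF F) (i : Fin 2) : ∃ j, g i j ≠ 0 := by
  by_contra h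
  push Not at h
  apply det_ne g
  rw [Matrix.det_eq_zero_of_row_eq_zero i h]

/-- `ℓ(g) = 2 max deg g_ij - deg det g` is not negative -/
theorem B.nonneg {k : ℤ} {g : GF F} (hg : B δ k g) : 0 ≤ k := by
  by_contra hk
  have h1 := det_ne g
  have h2 : δ.L ((g : Matrix (Fin 2) (Fin 2) F).det) (2 * (dd δ g + k)) := by
    rw [Matrix.det_fin_two]
    refine Dg.L.sub ?_ ?_
    · exact ((hg 0 0).mul (hg 1 1)).mono (by omega)
    · exact ((hg 0 1).mul (hg 1 0)).mono (by omega)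
  have h3 := h2 h1
  unfold dd at h3
  omega

theorem B_one : B δ 0 (1 : GF F) := by
  intro i j hij
  rw [dd_one]
  have : ((1 : GF F) : Matrix (Fin 2) (Fin 2) F) i j = if i = j then 1 else 0 := Matrix.one_apply
  have e : (1 : GF F) i j = if i = j then 1 else 0 := this
  rw [e] at hij ⊢
  split_ifs at hij ⊢ with h
  · rw [δ.one]; omega
  · exact absurd rfl hij

/-- the stabilizer of the standard vertex -/
def HH (δ : Dg F) : Subgroup (GF F) where
  carrier := {g | B δ 0 g}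
  one_mem' := B_one
  mul_mem' := fun {g h} hg hh => by simpa using B.mul hg hh
  inv_mem' := fun {g} hg => B.inv hg

theorem mem_HH {g : GF F} : g ∈ HH δ ↔ B δ 0 g := Iff.rfl

theorem B.congr {k : ℤ} {g h₁ h₂ : GF F} (hg : B δ k g) (m₁ : h₁ ∈ HH δ) (m₂ : h₂ ∈ HH δ) :
    B δ k (h₁ * g * h₂) := by
  simpa using B.mul (B.mul (mem_HH.mp m₁) hg) (mem_HH.mp m₂)

/-! ### the last row -/

variable (δ)

/-- the degree of the last row -/
noncomputable def rr (g : GF F) : ℤ :=
  open Classical in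
  if g 1 0 = 0 then δ.D (g 1 1) else if g 1 1 = 0 then δ.D (g 1 0) else
    max (δ.D (g 1 0)) (δ.D (g 1 1))

theorem rr_le (g : GF F) (n : ℤ) : 2 * rr δ g ≤ n ↔ ∀ j, δ.L (g 1 j) n := by
  unfold rr
  have hne := exists_entry g 1
  constructor
  · intro h j hj
    fin_cases j
    · simp only [Fin.zero_eta] at *
      split_ifs at h with h1 h2
      · exact absurd h1 hj
      · exact h
      · omega
    · simp only [Fin.mk_one] at *
      split_ifs at h with h1
      · exact h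
      · omega
  · intro h
    split_ifs with h1 h2
    · refine h 1 ?_
      obtain ⟨j, hj⟩ := hne
      fin_cases j
      · exact absurd h1 hj
      · exact hj
    · exact h 0 h1
    · have := h 0 h1
      have := h 1 h2
      omega

/-- the level -/
noncomputable def lv (g : GF F) : ℤ := 2 * rr δ g - dd δ g

variable {δ}

theorem lv_mul {k : ℤ} (g : GF F) {h : GF F} (hh : B δ k h) : lv δ (g * h) ≤ lv δ g + k := by
  unfold lv
  have h1 := (rr_le δ g (2 * rr δ g)).mp le_rfl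
  have h2 : 2 * rr δ (g * h) ≤ 2 * rr δ g + (dd δ h + k) := by
    rw [rr_le]
    intro j
    have e : (g * h) 1 j = g 1 0 * h 0 j + g 1 1 * h 1 j := by
      show ((g * h : GF F) : Matrix (Fin 2) (Fin 2) F) 1 j = _
      rw [Units.val_mul, Matrix.mul_apply, Fin.sum_univ_two]
    rw [e]
    exact ((h1 0).mul (hh 0 j)).add ((h1 1).mul (hh 1 j))
  rw [dd_mul]
  omega

theorem lv_mul' {k : ℤ} (g : GF F) {h : GF F} (hh : B δ k h) : lv δ g - k ≤ lv δ (g * h) := by
  have := lv_mul (g * h) hh.inv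
  rw [mul_inv_cancel_right] at this
  omega

theorem lv_H (g : GF F) {h : GF F} (hh : h ∈ HH δ) : lv δ (g * h) = lv δ g := by
  have h1 := lv_mul g (mem_HH.mp hh)
  have h2 := lv_mul' g (mem_HH.mp hh)
  omega

theorem lv_parity (g h : GF F) : (lv δ (g * h) - lv δ g + dd δ h) % 2 = 0 := by
  unfold lv
  rw [dd_mul]
  omega

/-- adjacency with the standard vertex -/
def A1 (δ : Dg F) (z : GF F) : Prop := B δ 1 z ∧ dd δ z % 2 = 1

theorem A1.lv {z : GF F} (hz : A1 δ z) (g : GF F) :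
    lv δ (g * z) = lv δ g - 1 ∨ lv δ (g * z) = lv δ g + 1 := by
  have h1 := lv_mul g hz.1
  have h2 := lv_mul' g hz.1
  have h3 := lv_parity (δ := δ) g z
  have h4 := hz.2
  omega

theorem A1.congr {z h₁ h₂ : GF F} (hz : A1 δ z) (m₁ : h₁ ∈ HH δ) (m₂ : h₂ ∈ HH δ)
    : A1 δ (h₁ * z * h₂) := by
  refine ⟨hz.1.congr m₁ m₂, ?_⟩
  have e : ∀ h ∈ HH δ, dd δ h % 2 = 0 := by
    intro h hh
    have h1 := lv_H (δ := δ) 1 hh
    have h2 := lv_parity (δ := δ) 1 h
    omega
  rw [dd_mul, dd_mul]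
  have := e h₁ m₁
  have := e h₂ m₂
  have := hz.2
  omega

theorem A1.inv {z : GF F} (hz : A1 δ z) : A1 δ z⁻¹ := by
  refine ⟨hz.1.inv, ?_⟩
  rw [dd_inv]
  have := hz.2
  omega

theorem not_A1_H {z : GF F} (hz : A1 δ z) : z ∉ HH δ := by
  intro h
  have h1 := lv_H (δ := δ) 1 h
  have h2 := lv_parity (δ := δ) 1 z
  have := hz.2
  omega

/-- the matrix with the given entries -/
noncomputable def mk (a b c d : F) (h : a * d - b * c ≠ 0) : GF F :=
  Matrix.GeneralLinearGroup.mkOfDetNeZero !![a, b; c, d] (by rw [Matrix.det_fin_two_of]; exact h)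

theorem mk_val (a b c d : F) (h : a * d - b * c ≠ 0) :
    (mk a b c d h : Matrix (Fin 2) (Fin 2) F) = !![a, b; c, d] := rfl

theorem dd_mk (a b c d : F) (h : a * d - b * c ≠ 0) : dd δ (mk a b c d h) = δ.D (a * d - b * c) := by
  unfold dd
  rw [mk_val, Matrix.det_fin_two_of]

/-- every row can be moved to `(0, c)` by the standard stabilizer -/
theorem exists_k (g : GF F) : ∃ k ∈ HH δ, (g * k) 1 0 = 0 := by
  have e : ∀ k : GF F, (g * k) 1 0 = g 1 0 * k 0 0 + g 1 1 * k 1 0 := by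
    intro k
    show ((g * k : GF F) : Matrix (Fin 2) (Fin 2) F) 1 0 = _
    rw [Units.val_mul, Matrix.mul_apply, Fin.sum_univ_two]
  by_cases h0 : g 1 0 = 0
  · exact ⟨1, (HH δ).one_mem, by rw [mul_one]; exact h0⟩
  by_cases h1 : g 1 1 = 0
  · have hd : (0 : F) * 0 - 1 * 1 ≠ 0 := by simp
    refine ⟨mk 0 1 1 0 hd, ?_, ?_⟩
    · intro i j
      rw [dd_mk]
      have e1 : δ.D ((0 : F) * 0 - 1 * 1) = 0 := by
        rw [show (0 : F) * 0 - 1 * 1 = -1 by ring, δ.neg 1 one_ne_zero, δ.one]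
      rw [e1]
      show δ.L ((mk 0 1 1 0 hd : Matrix (Fin 2) (Fin 2) F) i j) _
      rw [mk_val]
      have o : δ.L (1 : F) (0 + 0) := by
        intro _
        rw [δ.one]; omega
      fin_cases i <;> fin_cases j
      · exact Dg.L.zero _
      · exact o
      · exact o
      · exact Dg.L.zero _
    · rw [e]
      show g 1 0 * (0 : F) + g 1 1 * 1 = 0
      rw [h1]
      ring
  rcases le_total (δ.D (g 1 0)) (δ.D (g 1 1)) with h | h
  · have hd : (1 : F) * 1 - 0 * (-(g 1 0 / g 1 1)) ≠ 0 := by simp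
    refine ⟨mk 1 0 (-(g 1 0 / g 1 1)) 1 hd, ?_, ?_⟩
    · intro i j
      rw [dd_mk]
      have e1 : δ.D ((1 : F) * 1 - 0 * (-(g 1 0 / g 1 1))) = 0 := by
        rw [show (1 : F) * 1 - 0 * (-(g 1 0 / g 1 1)) = 1 by ring, δ.one]
      rw [e1]
      show δ.L ((mk 1 0 (-(g 1 0 / g 1 1)) 1 hd : Matrix (Fin 2) (Fin 2) F) i j) _
      rw [mk_val]
      have o : δ.L (1 : F) (0 + 0) := by
        intro _
        rw [δ.one]; omega
      fin_cases i <;> fin_cases j
      · exact o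
      · exact Dg.L.zero _
      · refine Dg.L.neg ?_
        intro _
        rw [div_eq_mul_inv, δ.mul _ _ h0 (inv_ne_zero h1), δ.inv _ h1]
        omega
      · exact o
    · rw [e]
      show g 1 0 * (1 : F) + g 1 1 * (-(g 1 0 / g 1 1)) = 0
      field_simp
      ring
  · have hd : (-(g 1 1 / g 1 0)) * 0 - (1 : F) * 1 ≠ 0 := by simp
    refine ⟨mk (-(g 1 1 / g 1 0)) 1 1 0 hd, ?_, ?_⟩
    · intro i j
      rw [dd_mk]
      have e1 : δ.D ((-(g 1 1 / g 1 0)) * 0 - (1 : F) * 1) = 0 := by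
        rw [show (-(g 1 1 / g 1 0)) * 0 - (1 : F) * 1 = -1 by ring, δ.neg 1 one_ne_zero, δ.one]
      rw [e1]
      show δ.L ((mk (-(g 1 1 / g 1 0)) 1 1 0 hd : Matrix (Fin 2) (Fin 2) F) i j) _
      rw [mk_val]
      have o : δ.L (1 : F) (0 + 0) := by
        intro _
        rw [δ.one]; omega
      fin_cases i <;> fin_cases j
      · refine Dg.L.neg ?_
        intro _
        rw [div_eq_mul_inv, δ.mul _ _ h1 (inv_ne_zero h0), δ.inv _ h0]
        omega
      · exact o
      · exact o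
      · exact Dg.L.zero _
    · rw [e]
      show g 1 0 * (-(g 1 1 / g 1 0)) + g 1 1 * (1 : F) = 0
      field_simp
      ring

/-- if the last row of `g` is `(0, c)` -/
theorem lv_zero {g : GF F} (h0 : g 1 0 = 0) (z : GF F) : lv δ (g * z) = lv δ g + lv δ z := by
  have e : ∀ j, (g * z) 1 j = g 1 1 * z 1 j := by
    intro j
    show ((g * z : GF F) : Matrix (Fin 2) (Fin 2) F) 1 j = _
    rw [Units.val_mul, Matrix.mul_apply, Fin.sum_univ_two]
    have : (g : Matrix (Fin 2) (Fin 2) F) 1 0 = 0 := h0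
    rw [this, zero_mul, zero_add]
  have h1 : g 1 1 ≠ 0 := by
    obtain ⟨j, hj⟩ := exists_entry g 1
    fin_cases j
    · exact absurd h0 hj
    · exact hj
  have e1 : rr δ g = δ.D (g 1 1) := by
    unfold rr
    rw [if_pos h0]
  have e2 : ∀ n, 2 * rr δ (g * z) ≤ n ↔ 2 * rr δ z ≤ n - 2 * δ.D (g 1 1) := by
    intro n
    rw [rr_le, rr_le]
    refine forall_congr' fun j => ?_
    rw [e]
    unfold Dg.L
    constructor
    · intro h hz
      have := h (mul_ne_zero h1 hz)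
      rw [δ.mul _ _ h1 hz] at this
      omega
    · intro h hz
      have hz' := right_ne_zero_of_mul hz
      rw [δ.mul _ _ h1 hz']
      have := h hz'
      omega
  have e3 := (e2 (2 * rr δ (g * z))).mp le_rfl
  have e4 := (e2 (2 * rr δ z + 2 * δ.D (g 1 1))).mpr (by omega)
  unfold lv
  rw [dd_mul, e1]
  omega

/-- **uniqueness of the parent** -/
theorem parent_unique {g z w : GF F} (hz : A1 δ z) (hw : A1 δ w)
    (h1 : lv δ (g * z) = lv δ g - 1) (h2 : lv δ (g * w) = lv δ g - 1) : z⁻¹ * w ∈ HH δ := by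
  obtain ⟨k, hk, hk0⟩ := exists_k (δ := δ) g
  -- replace `g` by `g k` and `z`, `w` by `k⁻¹ z`, `k⁻¹ w`
  have key : ∀ z : GF F, A1 δ z → lv δ (g * z) = lv δ g - 1 →
      A1 δ (k⁻¹ * z) ∧ lv δ (k⁻¹ * z) = -1 := by
    intro z hz h
    have a1 : A1 δ (k⁻¹ * z) := by
      have := hz.congr ((HH δ).inv_mem hk) (HH δ).one_mem
      rwa [mul_one] at this
    refine ⟨a1, ?_⟩
    have h3 := lv_zero (δ := δ) hk0 (k⁻¹ * z)
    rw [mul_assoc, mul_inv_cancel_left, lv_H g hk] at h3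
    omega
  obtain ⟨a1, a2⟩ := key z hz h1
  obtain ⟨b1, b2⟩ := key w hw h2
  have e : z⁻¹ * w = (k⁻¹ * z)⁻¹ * (k⁻¹ * w) := by group
  rw [e]
  generalize k⁻¹ * z = z' at *
  generalize k⁻¹ * w = w' at *
  intro i j
  have rz := (rr_le δ z' (2 * rr δ z')).mp le_rfl
  have rw' := (rr_le δ w' (2 * rr δ w')).mp le_rfl
  have ez : 2 * rr δ z' = dd δ z' - 1 := by unfold lv at a2; omega
  have ew : 2 * rr δ w' = dd δ w' - 1 := by unfold lv at b2; omega
  rw [ez] at rz
  rw [ew] at rw'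
  have e1 : (z'⁻¹ * w') i j = (z'⁻¹ : GF F) i 0 * w' 0 j + (z'⁻¹ : GF F) i 1 * w' 1 j := by
    show ((z'⁻¹ * w' : GF F) : Matrix (Fin 2) (Fin 2) F) i j = _
    rw [Units.val_mul, Matrix.mul_apply, Fin.sum_univ_two]
  rw [e1, dd_mul, dd_inv, inv_entry, inv_entry]
  have hi : δ.L (((z' : Matrix (Fin 2) (Fin 2) F).det)⁻¹) (-2 * dd δ z') := by
    intro _
    rw [δ.inv _ (det_ne z')]
    unfold dd
    omega
  -- the first column of the adjugate is the last row of `z'` up to sign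
  have c0 : δ.L ((z' : Matrix (Fin 2) (Fin 2) F).adjugate i 0) (dd δ z' - 1) := by
    rw [Matrix.adjugate_fin_two]
    fin_cases i
    · exact rz 1
    · exact (rz 0).neg
  have c1 : δ.L ((z' : Matrix (Fin 2) (Fin 2) F).adjugate i 1) (dd δ z' + 1) :=
    adj_L a1.1 i 1
  refine Dg.L.add ?_ ?_
  · exact ((hi.mul c0).mul (b1.1 0 j)).mono (by omega)
  · exact ((hi.mul c1).mul (rw' j)).mono (by omega)

/-- **existence of the parent** -/
theorem parent_exists (g : GF F) : ∃ z : GF F, A1 δ z ∧ lv δ (g * z) = lv δ g - 1 := by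
  obtain ⟨k, hk, hk0⟩ := exists_k (δ := δ) g
  obtain ⟨π, hπ, hπ1⟩ := δ.pi
  have hd : π * 1 - 0 * 0 ≠ 0 := by simpa using hπ
  have a : A1 δ (mk π 0 0 1 hd) := by
    have e1 : dd δ (mk π 0 0 1 hd) = 1 := by
      rw [dd_mk, show π * 1 - 0 * 0 = π by ring, hπ1]
    refine ⟨?_, by rw [e1]; rfl⟩
    intro i j
    rw [e1]
    show δ.L ((mk π 0 0 1 hd : Matrix (Fin 2) (Fin 2) F) i j) _
    rw [mk_val]
    fin_cases i <;> fin_cases j
    · intro _
      show 2 * δ.D π ≤ _
      rw [hπ1]; omega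
    · exact Dg.L.zero _
    · exact Dg.L.zero _
    · intro _
      show 2 * δ.D 1 ≤ _
      rw [δ.one]; omega
  refine ⟨k * mk π 0 0 1 hd, ?_, ?_⟩
  · have := a.congr hk (HH δ).one_mem
    rwa [mul_one] at this
  · have h1 := lv_zero (δ := δ) hk0 (mk π 0 0 1 hd)
    rw [mul_assoc, lv_H g hk] at h1
    have e1 : lv δ (mk π 0 0 1 hd) = -1 := by
      unfold lv rr
      rw [dd_mk, show π * 1 - 0 * 0 = π by ring, hπ1]
      have : (mk π 0 0 1 hd) 1 0 = 0 := rfl
      rw [if_pos this]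
      have : (mk π 0 0 1 hd) 1 1 = 1 := rfl
      rw [this, δ.one]
      omega
    rw [h1, e1]
    omega

end Pool.Agent.W2helper34.GT
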