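import Pool.Agent.W2helper34.GT.Exm

/-!
# Final forms
-/

set_option autoImplicit false
set_option linter.unusedSectionVars false

namespace Pool.Agent.W2helper34.GT

open Pool.Agent.Y110.FJ (ClosedE)

/-- `GL_2 (O)` -/
theorem gl2 {C : ∀ (G : Type) [Group G], Prop} (hC : ClosedE C) {K : Type} [Field K]
    (hK : ∀ n, C (GL (Fin n) K)) (O : Type) [CommRing O] [IsDomain O] [Algebra K O]
    [Algebra.FiniteType K O] (d : DegO K O) : C (GL (Fin 2) O) := by
  let F := FractionRing O
  let am : O →+* F := algebraMap O F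
  have ham : Function.Injective am := IsFractionRing.injective O F
  let L : Submodule O (Fin 2 → F) := Submodule.span O (Set.range fun i : Fin 2 => Pi.single i (1 : F))
  have hL : L.FG := Submodule.fg_span (Set.finite_range _)
  have hmem : ∀ x : Fin 2 → F, x ∈ L ↔ ∀ i, ∃ a : O, am a = x i := by
    intro x
    constructor
    · intro hx
      induction hx using Submodule.span_induction with
      | mem x hx =>
        obtain ⟨j, rfl⟩ := hx
        intro i
        by_cases h : i = j
        · subst h
          exact ⟨1, by simp⟩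
        · exact ⟨0, by simp [h]⟩
      | zero => exact fun i => ⟨0, by simp⟩
      | add x y _ _ hx hy =>
        intro i
        obtain ⟨a, ha⟩ := hx i
        obtain ⟨b, hb⟩ := hy i
        exact ⟨a + b, by rw [map_add, ha, hb]; rfl⟩
      | smul r x _ hx =>
        intro i
        obtain ⟨a, ha⟩ := hx i
        exact ⟨r * a, by rw [map_mul, ha, Pi.smul_apply, Algebra.smul_def]⟩
    · intro h
      choose a ha using h
      have : x = ∑ i, a i • (Pi.single i (1 : F) : Fin 2 → F) := by
        funext j
        rw [Finset.sum_apply]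
        rw [Finset.sum_eq_single j]
        · rw [Pi.smul_apply, Pi.single_eq_same, Algebra.smul_def, mul_one, ← ha j]
        · intro i _ hij
          rw [Pi.smul_apply, Pi.single_eq_of_ne hij.symm, smul_zero]
        · intro h
          exact absurd (Finset.mem_univ j) h
      rw [this]
      exact Submodule.sum_mem _ fun i _ => Submodule.smul_mem _ _ (Submodule.subset_span ⟨i, rfl⟩)
  refine lattice2 d hC hK L hL ?_ (Matrix.GeneralLinearGroup.map am) ?_ ?_
  · rw [eq_top_iff]
    intro v _
    have : v = ∑ i, v i • (Pi.single i (1 : F) : Fin 2 → F) := by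
      funext j
      rw [Finset.sum_apply]
      rw [Finset.sum_eq_single j]
      · rw [Pi.smul_apply, Pi.single_eq_same, smul_eq_mul, mul_one]
      · intro i _ hij
        rw [Pi.smul_apply, Pi.single_eq_of_ne hij.symm, smul_zero]
      · intro h
        exact absurd (Finset.mem_univ j) h
    rw [this]
    exact Submodule.sum_mem _ fun i _ => Submodule.smul_mem _ _ (Submodule.subset_span
      (Submodule.subset_span ⟨i, rfl⟩))
  · intro g h hgh
    apply Units.ext
    ext i j
    apply ham
    exact congrArg (fun u : GL (Fin 2) F => (u : Matrix (Fin 2) (Fin 2) F) i j) hgh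
  · intro g x hx
    rw [hmem] at hx ⊢
    intro i
    choose a ha using hx
    refine ⟨∑ j, (g : Matrix (Fin 2) (Fin 2) O) i j * a j, ?_⟩
    rw [map_sum]
    simp only [map_mul, ha]
    rfl

/-- polynomials in arbitrarily many variables -/
theorem gl2_poly {C : ∀ (G : Type) [Group G], Prop} (hC : ClosedE C) {K : Type} [Field K]
    (hK : ∀ n, C (GL (Fin n) K)) (σ : Type) : C (GL (Fin 2) (MvPolynomial σ K)) := by
  classical
  let ι (s : Finset σ) : MvPolynomial {x // x ∈ s} K →+* MvPolynomial σ K :=
    (MvPolynomial.rename (Subtype.val : {x // x ∈ s} → σ) : _ →ₐ[K] _)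
  let r (s : Finset σ) : MvPolynomial σ K →+* MvPolynomial {x // x ∈ s} K :=
    (MvPolynomial.killCompl (Subtype.val_injective : Function.Injective (Subtype.val :
      {x // x ∈ s} → σ)) : _ →ₐ[K] _)
  have hr : ∀ s p, r s (ι s p) = p := fun s p => MvPolynomial.killCompl_rename_app _ p
  let φ (s : Finset σ) : GL (Fin 2) (MvPolynomial {x // x ∈ s} K) →* GL (Fin 2) (MvPolynomial σ K) :=
    Matrix.GeneralLinearGroup.map (ι s)
  have hφ : ∀ s, Function.Injective (φ s) := by
    intro s g h hgh
    apply Units.ext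
    ext1 i j
    have h1 : ι s (g i j) = ι s (h i j) :=
      congrArg (fun u : GL (Fin 2) (MvPolynomial σ K) =>
        (u : Matrix (Fin 2) (Fin 2) (MvPolynomial σ K)) i j) hgh
    have h2 := congrArg (r s) h1
    rwa [hr, hr] at h2
  have hmem : ∀ s (g : GL (Fin 2) (MvPolynomial σ K)), g ∈ (φ s).range ↔
      ∀ i j, ∃ p, ι s p = g i j := by
    intro s g
    constructor
    · rintro ⟨h, rfl⟩ i j
      exact ⟨h i j, rfl⟩
    · intro h
      refine ⟨Matrix.GeneralLinearGroup.map (r s) g, ?_⟩
      apply Units.ext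
      ext1 i j
      obtain ⟨p, hp⟩ := h i j
      show ι s (r s (g i j)) = g i j
      rw [← hp, hr]
  have hmono : ∀ s t : Finset σ, s ⊆ t → ∀ p, ∃ q, ι t q = ι s p := by
    intro s t hst p
    refine ⟨MvPolynomial.rename (Set.inclusion hst : {x // x ∈ s} → {x // x ∈ t}) p, ?_⟩
    exact MvPolynomial.rename_rename _ _ p
  refine Pool.Agent.Y430.SS.of_directed hC.base _ (Finset σ)
    (fun s t => ⟨s ∪ t, Finset.subset_union_left, Finset.subset_union_right⟩)
    (fun s => (φ s).range) ?_ ?_ ?_
  · intro s t hst g hg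
    show g ∈ (φ t).range
    rw [hmem] at hg ⊢
    intro i j
    obtain ⟨p, hp⟩ := hg i j
    obtain ⟨q, hq⟩ := hmono s t hst p
    exact ⟨q, hq.trans hp⟩
  · intro g
    have h1 : ∀ i j, ∃ s : Finset σ, ∃ p, ι s p = g i j := by
      intro i j
      obtain ⟨s, q, hq⟩ := MvPolynomial.exists_finset_rename (g i j)
      exact ⟨s, q, hq.symm⟩
    choose s hs using h1
    refine ⟨Finset.univ.biUnion fun i => Finset.univ.biUnion fun j => s i j, ?_⟩
    rw [hmem]
    intro i j
    obtain ⟨p, hp⟩ := hs i j
    obtain ⟨q, hq⟩ := hmono (s i j) (Finset.univ.biUnion fun i => Finset.univ.biUnion fun j => s i j)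
      (by
        intro x hx
        rw [Finset.mem_biUnion]
        refine ⟨i, Finset.mem_univ _, ?_⟩
        rw [Finset.mem_biUnion]
        exact ⟨j, Finset.mem_univ _, hx⟩) p
    exact ⟨q, hq.trans hp⟩
  · intro s
    exact hC.base.of_injective _ _ (MonoidHom.ofInjective (hφ s)).symm.toMonoidHom
      (MulEquiv.injective _) (gl2 hC hK _ (degMv K _))

section flags

variable {K O F : Type} [Field K] [CommRing O] [IsDomain O] [Algebra K O] [Algebra.FiniteType K O]
  [Field F] [Algebra O F] [IsFractionRing O F] [Algebra K F] [IsScalarTower K O F]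
  {C : ∀ (G : Type) [Group G], Prop}

/-- from the factors to the group -/
theorem of_factors (hC : ClosedE C)
    (hS : ∀ (G : Type) [Group G], Group.IsSolvable G → C G) {V : Type} [AddCommGroup V] [Module F V]
    {G : Type} [Group G] (ρ : G →* Module.End F V) (hinj : Function.Injective ρ)
    (k : ℕ) (W : ℕ → Submodule F V)
    (h0 : W 0 = ⊥) (hk : W k = ⊤) (hW : ∀ i g, ∀ x ∈ W i, ρ g x ∈ W i)
    (h : ∀ i < k, ∃ (N : Subgroup G) (_ : N.Normal), C (G ⧸ N) ∧
      ∀ g ∈ N, ∀ x ∈ W (i + 1), ρ g x - x ∈ W i) : C G := by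
  have key : ∀ m ≤ k, ∃ (N : Subgroup G) (_ : N.Normal), C (G ⧸ N) ∧
      ∀ g ∈ N, ∀ i < m, ∀ x ∈ W (i + 1), ρ g x - x ∈ W i := by
    intro m
    induction m with
    | zero =>
      intro _
      refine ⟨⊤, inferInstance, ?_, fun g _ i hi => absurd hi (by omega)⟩
      have : Finite (G ⧸ (⊤ : Subgroup G)) := by
        have : Subsingleton (G ⧸ (⊤ : Subgroup G)) := QuotientGroup.subsingleton_quotient_top
        infer_instance
      exact Pool.Agent.Y430.SS.of_finite hC.base _ inferInstance
    | succ m ih =>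
      intro hm
      obtain ⟨N, hN, hCN, hNi⟩ := ih (by omega)
      obtain ⟨N', hN', hCN', hNi'⟩ := h m (by omega)
      refine ⟨N ⊓ N', inferInstance, C_quot_inf hC _ _ hCN hCN', fun g hg i hi => ?_⟩
      rcases Nat.lt_succ_iff_lt_or_eq.mp hi with hi | rfl
      · exact hNi g hg.1 i hi
      · exact hNi' g hg.2
  obtain ⟨N, hN, hCN, hNi⟩ := key k le_rfl
  refine solv_ext hC hS N ?_ hCN
  refine flag_solvable (ρ.comp N.subtype) W ?_ k h0 hk (fun i g x hx => hW i g x hx) ?_
  · exact hinj.comp N.subtype_injective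
  · intro i hi g x hx
    exact hNi g g.2 i hi x hx

/-- factors of dimension at most two -/
theorem factor_two (d : DegO K O) (hC : ClosedE C) (hK : ∀ n, C (GL (Fin n) K))
    (hS : ∀ (G : Type) [Group G], Group.IsSolvable G → C G) {V : Type} [AddCommGroup V] [Module F V]
    [Module O V] [IsScalarTower O F V] [Module.Finite F V] (L : Submodule O V) (hL : L.FG)
    (hsp : ∀ v : V, ∃ t : O, t ≠ 0 ∧ t • v ∈ L) {G : Type} [Group G] (ρ : G →* Module.End F V)
    (hρ : ∀ g, ∀ x ∈ L, ρ g x ∈ L) (A B : Submodule F V) (hAB : A ≤ B)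
    (hA : ∀ g, ∀ x ∈ A, ρ g x ∈ A) (hB : ∀ g, ∀ x ∈ B, ρ g x ∈ B)
    (h : Module.finrank F B ≤ Module.finrank F A + 2) :
    ∃ (N : Subgroup G) (_ : N.Normal), C (G ⧸ N) ∧ ∀ g ∈ N, ∀ x ∈ B, ρ g x - x ∈ A := by
  refine ⟨(facH ρ A B hA hB).ker, inferInstance,
    quot_fac d hC hK hS L hL hsp ρ hρ A B hA hB (Or.inl ?_), fun g hg x hx => facH_one ρ hg x hx⟩
  have h1 := Submodule.finrank_quotient_add_finrank (A.submoduleOf B)
  have h2 : Module.finrank F (A.submoduleOf B) = Module.finrank F A :=
    LinearEquiv.finrank_eq (Submodule.submoduleOfEquivOfLe hAB)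
  show Module.finrank F (↥B ⧸ A.submoduleOf B) ≤ 2
  omega

/-- factors which are finite over `K` -/
theorem factor_K (hC : ClosedE C) (hK : ∀ n, C (GL (Fin n) K)) {V : Type} [AddCommGroup V]
    [Module F V] {G : Type} [Group G] (ρ : G →* Module.End F V)
    (A B : Submodule F V)
    (hA : ∀ g, ∀ x ∈ A, ρ g x ∈ A) (hB : ∀ g, ∀ x ∈ B, ρ g x ∈ B)
    (T : Finset (Module.End F V)) (κ : G → Module.End F V → K)
    (hT : ∀ g, ∀ x ∈ B, ρ g x - ∑ t ∈ T, algebraMap K F (κ g t) • t x ∈ A) :
    ∃ (N : Subgroup G) (_ : N.Normal), C (G ⧸ N) ∧ ∀ g ∈ N, ∀ x ∈ B, ρ g x - x ∈ A := by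
  refine ⟨(facH ρ A B hA hB).ker, inferInstance, ?_, fun g hg x hx => facH_one ρ hg x hx⟩
  let _ : Algebra K (Module.End F (Fac A B)) :=
    ((algebraMap F (Module.End F (Fac A B))).comp (algebraMap K F)).toAlgebra' (fun c x =>
      Algebra.commutes (algebraMap K F c) x)
  have hsm : ∀ (c : K) (x : Module.End F (Fac A B)), c • x = algebraMap K F c • x := by
    intro c x
    have e : c • x = algebraMap K (Module.End F (Fac A B)) c * x := Algebra.smul_def c x
    rw [e, Algebra.smul_def]
    rfl
  refine K_finite hC hK (facH ρ A B hA hB) ?_ _ (fun g => Iff.rfl)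
  -- the maps from `B` to `V / A`
  let _ : Module K (B →ₗ[F] V ⧸ A) := Module.compHom _ (algebraMap K F)
  let j : Fac A B →ₗ[F] V ⧸ A := Submodule.mapQ _ _ B.subtype (by
    intro x hx
    exact hx)
  have hj : Function.Injective j := by
    rw [← LinearMap.ker_eq_bot, Submodule.eq_bot_iff]
    intro x hx
    obtain ⟨x, rfl⟩ := Submodule.Quotient.mk_surjective _ x
    rw [Submodule.Quotient.mk_eq_zero]
    have h1 : Submodule.Quotient.mk (p := A) (x : V) = 0 := hx
    rw [Submodule.Quotient.mk_eq_zero] at h1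
    exact h1
  let Φ : Module.End F (Fac A B) →ₗ[K] (B →ₗ[F] V ⧸ A) :=
    { toFun := fun f => j.comp (f.comp (A.submoduleOf B).mkQ)
      map_add' := fun f g => by
        apply LinearMap.ext
        intro x
        show j ((f + g) _) = j (f _) + j (g _)
        rw [LinearMap.add_apply, map_add]
      map_smul' := fun c f => by
        rw [hsm]
        apply LinearMap.ext
        intro x
        show j ((algebraMap K F c • f) _) = algebraMap K F c • j (f _)
        rw [LinearMap.smul_apply, map_smul] }
  have hΦ : Function.Injective Φ := by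
    intro f g hfg
    apply LinearMap.ext
    intro x
    obtain ⟨x, rfl⟩ := Submodule.Quotient.mk_surjective _ x
    exact hj (LinearMap.congr_fun hfg x)
  let Tm : Module.End F V → (B →ₗ[F] V ⧸ A) := fun t => A.mkQ.comp (t.comp B.subtype)
  have h1 : (Submodule.span K (Set.range (facH ρ A B hA hB))).map Φ ≤
      Submodule.span K (Tm '' (T : Set (Module.End F V))) := by
    rw [Submodule.map_span, Submodule.span_le]
    rintro _ ⟨_, ⟨g, rfl⟩, rfl⟩
    have e : Φ (facH ρ A B hA hB g) = ∑ t ∈ T, κ g t • Tm t := by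
      apply LinearMap.ext
      intro x
      have e1 : Φ (facH ρ A B hA hB g) x = Submodule.Quotient.mk (ρ g x) := rfl
      have e2 : ∀ t : Module.End F V, (κ g t • Tm t) x =
          algebraMap K F (κ g t) • Submodule.Quotient.mk (p := A) (t x) := fun t => rfl
      rw [e1, LinearMap.sum_apply]
      simp only [e2]
      have h2 := hT g x x.2
      rw [← Submodule.Quotient.mk_eq_zero, Submodule.Quotient.mk_sub, sub_eq_zero] at h2
      rw [h2]
      show A.mkQ _ = _
      rw [map_sum]
      rfl
    rw [e]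
    exact Submodule.sum_mem _ fun t ht => Submodule.smul_mem _ _ (Submodule.subset_span ⟨t, ht, rfl⟩)
  have h2 : Module.Finite K (Submodule.span K (Tm '' (T : Set (Module.End F V)))) :=
    Module.Finite.span_of_finite K (T.finite_toSet.image Tm)
  have h3 : Module.Finite K ((Submodule.span K (Set.range (facH ρ A B hA hB))).map Φ) :=
    Submodule.finiteDimensional_of_le h1
  exact Module.Finite.equiv (Submodule.equivMapOfInjective Φ hΦ _).symm

end flags

end Pool.Agent.W2helper34.GT
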