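import Pool.Agent.W2helper34.GT.Ring
import Pool.Agent.W2helper34.GT.Act

/-!
# Groups which preserve a lattice
-/

set_option autoImplicit false
set_option linter.unusedSectionVars false

namespace Pool.Agent.W2helper34.GT

open Pool.Agent.Y110.FJ (ClosedE)

section hom

variable {K O F : Type} [Field K] [CommRing O] [IsDomain O] [Algebra K O] [Algebra.FiniteType K O]
  [Field F] [Algebra O F] [IsFractionRing O F] [Algebra K F] [IsScalarTower K O F]

/-- the quotient of a finitely generated module by an ideal of finite codimension -/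
theorem finite_quot {M : Type} [AddCommGroup M] [Module O M] [Module K M] [IsScalarTower K O M]
    [Module.Finite O M] {I : Ideal O} (hI : FC K I) :
    Module.Finite K (M ⧸ (I • (⊤ : Submodule O M))) := by
  unfold FC at hI
  have h1 : Module.Finite O (M ⧸ (I • (⊤ : Submodule O M))) := inferInstance
  have h2 : Module.Finite (O ⧸ I) (M ⧸ (I • (⊤ : Submodule O M))) :=
    Module.Finite.of_restrictScalars_finite O (O ⧸ I) _
  have h3 : IsScalarTower K (O ⧸ I) (M ⧸ (I • (⊤ : Submodule O M))) := by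
    refine ⟨fun k a m => ?_⟩
    obtain ⟨a, rfl⟩ := Ideal.Quotient.mk_surjective a
    have e1 : k • (Ideal.Quotient.mk I a) = Ideal.Quotient.mk I (k • a) := rfl
    have e2 : ∀ (b : O) (m : M ⧸ (I • (⊤ : Submodule O M))), Ideal.Quotient.mk I b • m = b • m :=
      fun b m => rfl
    rw [e1, e2, e2, smul_assoc]
  exact Module.Finite.trans (O ⧸ I) _

/-- the action on the quotient -/
noncomputable def actQ {M : Type} [AddCommGroup M] [Module O M] (I : Ideal O) :
    Module.End O M →* Module.End O (M ⧸ (I • (⊤ : Submodule O M))) where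
  toFun f := Submodule.mapQ _ _ f (Submodule.smul_top_le_comap_smul_top I f)
  map_one' := by
    apply LinearMap.ext
    intro x
    obtain ⟨x, rfl⟩ := Submodule.Quotient.mk_surjective _ x
    rfl
  map_mul' f g := by
    apply LinearMap.ext
    intro x
    obtain ⟨x, rfl⟩ := Submodule.Quotient.mk_surjective _ x
    rfl

/-- a homomorphism to the endomorphisms of a finite dimensional space gives one to `GL_N` -/
theorem exists_GL {Q : Type} [AddCommGroup Q] [Module K Q] [Module.Finite K Q] {G : Type} [Group G]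
    (τ : G →* Module.End K Q) : ∃ (N : ℕ) (f : G →* GL (Fin N) K), ∀ g, f g = 1 → τ g = 1 := by
  let b := Module.finBasis K Q
  let m : Module.End K Q →* Matrix (Fin (Module.finrank K Q)) (Fin (Module.finrank K Q)) K :=
    (LinearMap.toMatrixAlgEquiv b : Module.End K Q ≃ₐ[K] _)
  refine ⟨Module.finrank K Q, (m.comp τ).toHomUnits, fun g hg => ?_⟩
  have h1 := congrArg Units.val hg
  have h2 : LinearMap.toMatrixAlgEquiv b (τ g) = 1 := h1
  exact (LinearMap.toMatrixAlgEquiv b).injective (h2.trans (map_one _).symm)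

/-- a common denominator -/
theorem exists_den {ι : Type} [Fintype ι] (L : Submodule O (ι → F)) (S : Finset (ι → F))
    (hS : Submodule.span O (S : Set (ι → F)) = L) :
    ∃ t : O, t ≠ 0 ∧ ∀ x ∈ L, ∀ i, ∃ a : O, algebraMap O F a = t • x i := by
  classical
  obtain ⟨t, ht⟩ := IsLocalization.exist_integer_multiples_of_finset (nonZeroDivisors O)
    (S.biUnion fun x => Finset.univ.image fun i => x i)
  refine ⟨t, nonZeroDivisors.ne_zero t.2, ?_⟩
  intro x hx
  rw [← hS] at hx
  induction hx using Submodule.span_induction with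
  | mem x hx =>
    intro i
    exact ht (x i) (Finset.mem_biUnion.mpr ⟨x, hx, Finset.mem_image.mpr ⟨i, Finset.mem_univ _, rfl⟩⟩)
  | zero => exact fun i => ⟨0, by simp⟩
  | add x y _ _ hx hy =>
    intro i
    obtain ⟨a, ha⟩ := hx i
    obtain ⟨b, hb⟩ := hy i
    exact ⟨a + b, by rw [map_add, ha, hb, Pi.add_apply, smul_add]⟩
  | smul r x _ hx =>
    intro i
    obtain ⟨a, ha⟩ := hx i
    refine ⟨r * a, ?_⟩
    rw [map_mul, ha, Pi.smul_apply, Algebra.smul_def, Algebra.smul_def, Algebra.smul_def]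
    ring

variable (d : DegO K O)

/-- **homomorphisms without kernel on bounded elements** -/
theorem exists_hom {ι : Type} [Fintype ι] (L : Submodule O (ι → F)) (S : Finset (ι → F))
    (hS : Submodule.span O (S : Set (ι → F)) = L) {G : Type} [Group G]
    (ρ : G →* Module.End F (ι → F)) (hρ : ∀ g, ∀ x ∈ L, ρ g x ∈ L) (c : ℤ) :
    ∃ (N : ℕ) (f : G →* GL (Fin N) K), ∀ g,
      (∀ x ∈ S, ∀ i, ρ g x i ≠ 0 → DF d (ρ g x i) ≤ c) → f g = 1 → ∀ x ∈ L, ρ g x = x := by
  classical
  obtain ⟨t, ht0, hden⟩ := exists_den L S hS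
  -- a bound for the generators
  obtain ⟨c₁, hc₁, hcS⟩ : ∃ c₁ : ℤ, c ≤ c₁ ∧ ∀ x ∈ S, ∀ i, DF d (x i) ≤ c₁ := by
    obtain ⟨M, hM⟩ := (S.biUnion fun x => Finset.univ.image fun i => DF d (x i)).exists_le
    refine ⟨max c M, le_max_left _ _, fun x hx i => ?_⟩
    exact (hM _ (Finset.mem_biUnion.mpr ⟨x, hx, Finset.mem_image.mpr
      ⟨i, Finset.mem_univ _, rfl⟩⟩)).trans (le_max_right _ _)
  obtain ⟨W, hWf, hW⟩ := d.fin (c₁ + d.deg t).toNat
  obtain ⟨I, hI, hIW⟩ := exists_ideal (K := K) W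
  have hLf : Module.Finite O L := by
    rw [← hS]
    exact Module.Finite.span_finset O S
  have hQ : Module.Finite K (L ⧸ (I • (⊤ : Submodule O L))) := finite_quot hI
  -- the action on `L`
  let τ₀ : G →* Module.End O L :=
    { toFun := fun g => ((ρ g).restrictScalars O).restrict (hρ g)
      map_one' := by
        apply LinearMap.ext
        intro x
        apply Subtype.ext
        show (ρ 1) x = x
        rw [map_one]
        rfl
      map_mul' := by
        intro g h
        apply LinearMap.ext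
        intro x
        apply Subtype.ext
        show (ρ (g * h)) x = (ρ g) ((ρ h) x)
        rw [map_mul]
        rfl }
  let rK : Module.End O (L ⧸ (I • (⊤ : Submodule O L))) →*
      Module.End K (L ⧸ (I • (⊤ : Submodule O L))) :=
    { toFun := fun f => f.restrictScalars K
      map_one' := rfl
      map_mul' := fun _ _ => rfl }
  obtain ⟨N, f, hf⟩ := exists_GL (rK.comp ((actQ I).comp τ₀))
  refine ⟨N, f, fun g hg h1 => ?_⟩
  have h2 := hf g h1
  -- elements of `I L`
  have hIL : ∀ y : L, y ∈ (I • (⊤ : Submodule O L)) → ∀ i, ∃ a ∈ I,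
      algebraMap O F a = (t : O) • (y : ι → F) i := by
    intro y hy
    refine Submodule.smul_induction_on hy ?_ ?_
    · intro r hr n _ i
      obtain ⟨a, ha⟩ := hden n n.2 i
      refine ⟨r * a, I.mul_mem_right _ hr, ?_⟩
      rw [map_mul, ha]
      show _ = (t : O) • (r • (n : ι → F) i)
      rw [Algebra.smul_def, Algebra.smul_def, Algebra.smul_def]
      ring
    · intro x y hx hy i
      obtain ⟨a, haI, ha⟩ := hx i
      obtain ⟨b, hbI, hb⟩ := hy i
      refine ⟨a + b, I.add_mem haI hbI, ?_⟩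
      rw [map_add, ha, hb]
      show _ = (t : O) • ((x : ι → F) i + (y : ι → F) i)
      rw [smul_add]
  -- the generators are fixed
  have hfix : ∀ x ∈ S, ρ g x = x := by
    intro x hx
    have hxL : x ∈ L := by
      rw [← hS]
      exact Submodule.subset_span hx
    have h3 := LinearMap.congr_fun h2 (Submodule.Quotient.mk (⟨x, hxL⟩ : L))
    have h4 : Submodule.Quotient.mk (p := (I • (⊤ : Submodule O L))) (τ₀ g ⟨x, hxL⟩) =
        Submodule.Quotient.mk (⟨x, hxL⟩ : L) := h3
    rw [Submodule.Quotient.eq] at h4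
    have h5 := hIL _ h4
    funext i
    obtain ⟨a, haI, ha⟩ := h5 i
    have h6 : (((τ₀ g ⟨x, hxL⟩ - ⟨x, hxL⟩ : L) : ι → F)) i = ρ g x i - x i := rfl
    rw [h6] at ha
    by_contra hne
    have hne' : ρ g x i - x i ≠ 0 := sub_ne_zero.mpr hne
    have ha0 : a ≠ 0 := by
      rintro rfl
      rw [map_zero, Algebra.smul_def] at ha
      exact mul_ne_zero (am_ne ht0) hne' ha.symm
    apply ha0
    refine hIW a (hW a ha0 ?_) haI
    -- the degree of `a`
    have h7 : DF d (ρ g x i - x i) ≤ c₁ :=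
      DF_sub_le d (fun e => (hg x hx i e).trans hc₁) (fun _ => hcS x hx i) hne'
    have h8 : (d.deg a : ℤ) = d.deg t + DF d (ρ g x i - x i) := by
      rw [← DF_am (F := F) d ha0, ha, Algebra.smul_def, DF_mul d (am_ne ht0) hne', DF_am d ht0]
    omega
  intro x hx
  rw [← hS] at hx
  induction hx using Submodule.span_induction with
  | mem x hx => exact hfix x hx
  | zero => exact map_zero _
  | add x y _ _ hx hy => rw [map_add, hx, hy]
  | smul r x _ hx =>
    have : (ρ g) (r • x) = r • (ρ g) x := ((ρ g).restrictScalars O).map_smul r x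
    rw [this, hx]

/-- the determinants are bounded from below -/
theorem det_nonneg (L : Submodule O (Fin 2 → F)) (S : Finset (Fin 2 → F))
    (hS : Submodule.span O (S : Set (Fin 2 → F)) = L)
    (hspan : Submodule.span F (L : Set (Fin 2 → F)) = ⊤) {G : Type} [Group G]
    (ρ : G →* GF F) (hρ : ∀ g, ∀ x ∈ L, (ρ g : Matrix (Fin 2) (Fin 2) F).mulVec x ∈ L) (g : G) :
    0 ≤ DF d (ρ g : Matrix (Fin 2) (Fin 2) F).det := by
  obtain ⟨t, ht0, hden⟩ := exists_den L S hS
  -- two independent vectors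
  obtain ⟨x, hx, y, hy, hxy⟩ : ∃ x ∈ L, ∃ y ∈ L, x 0 * y 1 - x 1 * y 0 ≠ 0 := by
    by_contra hno
    push Not at hno
    have h1 : ∀ x ∈ L, ∀ y : Fin 2 → F, x 0 * y 1 - x 1 * y 0 = 0 := by
      intro x hx y
      have hy : y ∈ Submodule.span F (L : Set (Fin 2 → F)) := by rw [hspan]; trivial
      induction hy using Submodule.span_induction with
      | mem y hy => exact hno x hx y hy
      | zero => simp
      | add y z _ _ h1 h2 =>
        rw [Pi.add_apply, Pi.add_apply]
        linear_combination h1 + h2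
      | smul r y _ h1 =>
        rw [Pi.smul_apply, Pi.smul_apply, smul_eq_mul, smul_eq_mul]
        linear_combination r * h1
    have h2 : ∀ x y : Fin 2 → F, x 0 * y 1 - x 1 * y 0 = 0 := by
      intro x y
      have hx : x ∈ Submodule.span F (L : Set (Fin 2 → F)) := by rw [hspan]; trivial
      induction hx using Submodule.span_induction with
      | mem x hx => exact h1 x hx y
      | zero => simp
      | add x z _ _ h1 h2 =>
        rw [Pi.add_apply, Pi.add_apply]
        linear_combination h1 + h2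
      | smul r x _ h1 =>
        rw [Pi.smul_apply, Pi.smul_apply, smul_eq_mul, smul_eq_mul]
        linear_combination r * h1
    have h3 := h2 (fun i => if i = 0 then 1 else 0) (fun i => if i = 0 then 0 else 1)
    simp at h3
  have hu := det_ne (ρ g)
  -- the determinant is multiplied by the powers of `det`
  have hdet : ∀ h : G, ((ρ h : Matrix (Fin 2) (Fin 2) F).mulVec x) 0 *
      ((ρ h : Matrix (Fin 2) (Fin 2) F).mulVec y) 1 -
      ((ρ h : Matrix (Fin 2) (Fin 2) F).mulVec x) 1 *
      ((ρ h : Matrix (Fin 2) (Fin 2) F).mulVec y) 0 =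
      (ρ h : Matrix (Fin 2) (Fin 2) F).det * (x 0 * y 1 - x 1 * y 0) := by
    intro h
    rw [Matrix.det_fin_two]
    simp only [Matrix.mulVec, dotProduct, Fin.sum_univ_two]
    ring
  by_contra hneg
  push Not at hneg
  obtain ⟨n, hn⟩ : ∃ n : ℕ, 2 * (d.deg t : ℤ) + DF d (x 0 * y 1 - x 1 * y 0) < n := by
    refine ⟨(2 * (d.deg t : ℤ) + DF d (x 0 * y 1 - x 1 * y 0) + 1).toNat, ?_⟩
    omega
  have h1 := hdet (g ^ n)
  obtain ⟨a0, ha0⟩ := hden _ (hρ (g ^ n) x hx) 0
  obtain ⟨a1, ha1⟩ := hden _ (hρ (g ^ n) x hx) 1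
  obtain ⟨b0, hb0⟩ := hden _ (hρ (g ^ n) y hy) 0
  obtain ⟨b1, hb1⟩ := hden _ (hρ (g ^ n) y hy) 1
  rw [Algebra.smul_def] at ha0 ha1 hb0 hb1
  have h2 : algebraMap O F (a0 * b1 - a1 * b0) = algebraMap O F t * algebraMap O F t *
      ((ρ g : Matrix (Fin 2) (Fin 2) F).det ^ n * (x 0 * y 1 - x 1 * y 0)) := by
    have h3 : (ρ (g ^ n) : Matrix (Fin 2) (Fin 2) F).det =
        (ρ g : Matrix (Fin 2) (Fin 2) F).det ^ n := by
      rw [map_pow, Units.val_pow_eq_pow_val, Matrix.det_pow]
    rw [h3] at h1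
    rw [← h1, map_sub, map_mul, map_mul, ha0, ha1, hb0, hb1]
    ring
  have hun : (ρ g : Matrix (Fin 2) (Fin 2) F).det ^ n ≠ 0 := pow_ne_zero n hu
  have h4 : a0 * b1 - a1 * b0 ≠ 0 := by
    intro h
    rw [h, map_zero] at h2
    exact mul_ne_zero (mul_ne_zero (am_ne ht0) (am_ne ht0)) (mul_ne_zero hun hxy) h2.symm
  have h5 : ∀ m : ℕ, DF d ((ρ g : Matrix (Fin 2) (Fin 2) F).det ^ m) =
      m * DF d (ρ g : Matrix (Fin 2) (Fin 2) F).det := by
    intro m
    induction m with
    | zero => rw [pow_zero, DF_one]; simp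
    | succ m ih =>
      rw [pow_succ, DF_mul d (pow_ne_zero m hu) hu, ih]
      push_cast
      ring
  have h6 := congrArg (DF d) h2
  rw [DF_am d h4, DF_mul d (mul_ne_zero (am_ne ht0) (am_ne ht0)) (mul_ne_zero hun hxy),
    DF_mul d (am_ne ht0) (am_ne ht0), DF_mul d hun hxy, DF_am d ht0, h5] at h6
  have h7 : (n : ℤ) * DF d (ρ g : Matrix (Fin 2) (Fin 2) F).det ≤ -n := by
    have : (0 : ℤ) ≤ n := Int.natCast_nonneg n
    nlinarith
  omega

theorem det_zero (L : Submodule O (Fin 2 → F)) (S : Finset (Fin 2 → F))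
    (hS : Submodule.span O (S : Set (Fin 2 → F)) = L)
    (hspan : Submodule.span F (L : Set (Fin 2 → F)) = ⊤) {G : Type} [Group G]
    (ρ : G →* GF F) (hρ : ∀ g, ∀ x ∈ L, (ρ g : Matrix (Fin 2) (Fin 2) F).mulVec x ∈ L) (g : G) :
    DF d (ρ g : Matrix (Fin 2) (Fin 2) F).det = 0 := by
  have h1 := det_nonneg d L S hS hspan ρ hρ g
  have h2 := det_nonneg d L S hS hspan ρ hρ g⁻¹
  have h3 : (ρ g : Matrix (Fin 2) (Fin 2) F).det * (ρ g⁻¹ : Matrix (Fin 2) (Fin 2) F).det = 1 := by
    rw [← Matrix.det_mul, ← Units.val_mul, ← map_mul, mul_inv_cancel, map_one, Units.val_one,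
      Matrix.det_one]
  have h4 := DF_mul d (det_ne (ρ g)) (det_ne (ρ g⁻¹))
  rw [h3, DF_one] at h4
  omega

/-- **Groups which preserve a lattice of rank two.** -/
theorem lattice2 (d : DegO K O) {C : ∀ (G : Type) [Group G], Prop} (hC : ClosedE C) (hK : ∀ n, C (GL (Fin n) K))
    (L : Submodule O (Fin 2 → F)) (hL : L.FG)
    (hspan : Submodule.span F (L : Set (Fin 2 → F)) = ⊤) {G : Type} [Group G]
    (ρ : G →* GF F) (hinj : Function.Injective ρ)
    (hρ : ∀ g, ∀ x ∈ L, (ρ g : Matrix (Fin 2) (Fin 2) F).mulVec x ∈ L) : C G := by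
  classical
  obtain ⟨S, hS⟩ := hL
  let ρ' : G →* Module.End F (Fin 2 → F) :=
    ((Matrix.toLinAlgEquiv' : Matrix (Fin 2) (Fin 2) F ≃ₐ[F] _) : Matrix (Fin 2) (Fin 2) F →*
      Module.End F (Fin 2 → F)).comp ((Units.coeHom _).comp ρ)
  have hρ' : ∀ g x, ρ' g x = (ρ g : Matrix (Fin 2) (Fin 2) F).mulVec x := fun g x => rfl
  have hone : ∀ g, (∀ x ∈ L, ρ' g x = x) → g = 1 := by
    intro g hg
    apply hinj
    rw [map_one]
    have h1 : ∀ x, ρ' g x = x := by
      intro x
      have hx : x ∈ Submodule.span F (L : Set (Fin 2 → F)) := by rw [hspan]; trivial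
      induction hx using Submodule.span_induction with
      | mem x hx => exact hg x hx
      | zero => exact map_zero _
      | add x y _ _ hx hy => rw [map_add, hx, hy]
      | smul r x _ hx => rw [map_smul, hx]
    have h2 : ρ' g = 1 := LinearMap.ext h1
    apply Units.ext
    exact Matrix.toLinAlgEquiv'.injective (h2.trans (map_one Matrix.toLinAlgEquiv').symm)
  by_cases hD : ∃ x : F, x ≠ 0 ∧ DF d x ≠ 0
  · obtain ⟨δ, e, he, hδ⟩ := exists_Dg (F := F) d hD
    refine main_tree hC δ ρ fun k => ?_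
    -- a bound for the generators
    obtain ⟨c₁, hcS⟩ : ∃ c₁ : ℤ, ∀ x ∈ S, ∀ i, DF d (x i) ≤ c₁ := by
      obtain ⟨M, hM⟩ := (S.biUnion fun x => Finset.univ.image fun i => DF d (x i)).exists_le
      exact ⟨M, fun x hx i => hM _ (Finset.mem_biUnion.mpr ⟨x, hx, Finset.mem_image.mpr
        ⟨i, Finset.mem_univ _, rfl⟩⟩)⟩
    obtain ⟨N, f, hf⟩ := exists_hom d L S hS ρ' (fun g x hx => hρ g x hx) (e * |k| + c₁)
    refine ⟨GL (Fin N) K, inferInstance, f, hK N, fun g hB h1 => hone g (hf g ?_ h1)⟩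
    have hdd : dd δ (ρ g) = 0 := by
      have h2 := det_zero d L S hS hspan ρ hρ g
      rw [hδ _ (det_ne (ρ g))] at h2
      exact (mul_eq_zero.mp h2).resolve_left he.ne'
    have hent : ∀ i j, (ρ g : Matrix (Fin 2) (Fin 2) F) i j ≠ 0 →
        DF d ((ρ g : Matrix (Fin 2) (Fin 2) F) i j) ≤ e * |k| := by
      intro i j hij
      have h3 := hB i j hij
      rw [hdd, zero_add] at h3
      rw [hδ _ hij]
      refine mul_le_mul_of_nonneg_left ?_ he.le
      have h4 := le_abs_self k
      have h5 := abs_nonneg k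
      have h6 : 2 * δ.D ((ρ g : Matrix (Fin 2) (Fin 2) F) i j) ≤ k := h3
      omega
    intro x hx i hne
    have e1 : ρ' g x i = (ρ g : Matrix (Fin 2) (Fin 2) F) i 0 * x 0 -
        -((ρ g : Matrix (Fin 2) (Fin 2) F) i 1 * x 1) := by
      rw [hρ']
      simp only [Matrix.mulVec, dotProduct, Fin.sum_univ_two]
      ring
    have hterm : ∀ j, (ρ g : Matrix (Fin 2) (Fin 2) F) i j * x j ≠ 0 →
        DF d ((ρ g : Matrix (Fin 2) (Fin 2) F) i j * x j) ≤ e * |k| + c₁ := by
      intro j hj
      rw [DF_mul d (left_ne_zero_of_mul hj) (right_ne_zero_of_mul hj)]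
      exact add_le_add (hent i j (left_ne_zero_of_mul hj)) (hcS x hx j)
    rw [e1] at hne ⊢
    refine DF_sub_le d (hterm 0) (fun h => ?_) hne
    have h' := neg_ne_zero.mp h
    rw [DF_neg d h']
    exact hterm 1 h'
  · push Not at hD
    obtain ⟨N, f, hf⟩ := exists_hom d L S hS ρ' (fun g x hx => hρ g x hx) 0
    refine hC.base.of_injective _ _ f ?_ (hK N)
    rw [injective_iff_map_eq_one]
    intro g hg
    exact hone g (hf g (fun x _ i hne => (hD _ hne).le) hg)

end hom

end Pool.Agent.W2helper34.GT
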