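import Pool.Agent.W2helper34.GT.Deg

/-!
# Algebras with a degree function, lattices

`K` is a field, `O` a finitely generated `K`-algebra which is a domain, with a multiplicative degree
function whose sublevels are finite dimensional.
-/

set_option autoImplicit false
set_option linter.unusedSectionVars false

namespace Pool.Agent.W2helper34.GT

/-- a multiplicative degree function with finite dimensional sublevels -/
structure DegO (K O : Type) [Field K] [CommRing O] [Algebra K O] where
  deg : O → ℕ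
  mul : ∀ a b : O, a ≠ 0 → b ≠ 0 → deg (a * b) = deg a + deg b
  add : ∀ a b : O, a ≠ 0 → b ≠ 0 → a + b ≠ 0 → deg (a + b) ≤ max (deg a) (deg b)
  fin : ∀ m : ℕ, ∃ W : Submodule K O, FiniteDimensional K W ∧ ∀ a : O, a ≠ 0 → deg a ≤ m → a ∈ W

section rfd

variable {K O : Type} [Field K] [CommRing O] [IsDomain O] [Algebra K O] [Algebra.FiniteType K O]

/-- finite codimension -/
def FC (K : Type) {O : Type} [Field K] [CommRing O] [Algebra K O] (I : Ideal O) : Prop :=
  Module.Finite K (O ⧸ I)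

theorem FC_inf {I J : Ideal O} (hI : FC K I) (hJ : FC K J) : FC K (I ⊓ J) := by
  unfold FC at *
  let φ : (O ⧸ (I ⊓ J)) →ₐ[K] (O ⧸ I) × (O ⧸ J) :=
    AlgHom.prod (Ideal.Quotient.factorₐ K inf_le_left) (Ideal.Quotient.factorₐ K inf_le_right)
  have hφ : Function.Injective φ := by
    rw [injective_iff_map_eq_zero]
    intro x hx
    obtain ⟨a, rfl⟩ := Ideal.Quotient.mk_surjective x
    have h1 : (Ideal.Quotient.mk I a) = 0 := congrArg Prod.fst hx
    have h2 : (Ideal.Quotient.mk J a) = 0 := congrArg Prod.snd hx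
    rw [Ideal.Quotient.eq_zero_iff_mem] at h1 h2 ⊢
    exact ⟨h1, h2⟩
  exact Module.Finite.of_injective φ.toLinearMap hφ

/-- a nonzero element is not contained in some ideal of finite codimension -/
theorem exists_max {a : O} (ha : a ≠ 0) : ∃ I : Ideal O, FC K I ∧ a ∉ I := by
  have hJ : IsJacobsonRing O := isJacobsonRing_of_finiteType (A := K)
  have h1 : a ∉ Ideal.jacobson (⊥ : Ideal O) := by
    rw [hJ.out (Ideal.IsPrime.isRadical (inferInstance : (⊥ : Ideal O).IsPrime))]
    exact ha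
  rw [Ideal.jacobson, Ideal.mem_sInf] at h1
  push Not at h1
  obtain ⟨I, hI, haI⟩ := h1
  have hm : I.IsMaximal := hI.2
  refine ⟨I, ?_, haI⟩
  let _ : Field (O ⧸ I) := Ideal.Quotient.field I
  exact finite_of_finite_type_of_isJacobsonRing K (O ⧸ I)

/-- an ideal of finite codimension which meets a finite dimensional subspace trivially -/
theorem exists_ideal (W : Submodule K O) [FiniteDimensional K W] :
    ∃ I : Ideal O, FC K I ∧ ∀ a ∈ W, a ∈ I → a = 0 := by
  have key : ∀ n : ℕ, ∀ I : Ideal O, FC K I →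
      Module.finrank K ↥(I.restrictScalars K ⊓ W) ≤ n →
      ∃ J : Ideal O, FC K J ∧ ∀ a ∈ W, a ∈ J → a = 0 := by
    intro n
    induction n with
    | zero =>
      intro I hI h0
      refine ⟨I, hI, fun a haW haI => ?_⟩
      have : FiniteDimensional K ↥(I.restrictScalars K ⊓ W) :=
        Submodule.finiteDimensional_of_le inf_le_right
      have h1 : (I.restrictScalars K ⊓ W) = ⊥ := by
        apply Submodule.finrank_eq_zero.mp
        omega
      have h2 : a ∈ (I.restrictScalars K ⊓ W) := ⟨haI, haW⟩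
      rw [h1] at h2
      exact h2
    | succ n ih =>
      intro I hI hn
      by_cases hex : ∃ a ∈ W, a ∈ I ∧ a ≠ 0
      · obtain ⟨a, haW, haI, ha0⟩ := hex
        obtain ⟨J, hJ, haJ⟩ := exists_max (K := K) ha0
        refine ih (I ⊓ J) (FC_inf hI hJ) ?_
        have : FiniteDimensional K ↥(I.restrictScalars K ⊓ W) :=
          Submodule.finiteDimensional_of_le inf_le_right
        have hlt : ((I ⊓ J).restrictScalars K ⊓ W) < (I.restrictScalars K ⊓ W) := by
          refine lt_of_le_of_ne (fun x hx => ⟨hx.1.1, hx.2⟩) fun h => ?_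
          have h2 : a ∈ (I.restrictScalars K ⊓ W) := ⟨haI, haW⟩
          rw [← h] at h2
          exact haJ h2.1.2
        have := Submodule.finrank_lt_finrank_of_lt hlt
        omega
      · push Not at hex
        exact ⟨I, hI, hex⟩
  exact key _ ⊤ (by
    unfold FC
    have : Subsingleton (O ⧸ (⊤ : Ideal O)) := Ideal.Quotient.subsingleton_iff.mpr rfl
    infer_instance) le_rfl

end rfd

section frac

variable {K O F : Type} [Field K] [CommRing O] [IsDomain O] [Algebra K O] [Field F] [Algebra O F]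
  [IsFractionRing O F] (d : DegO K O)

omit [IsDomain O] in
theorem DegO.one [Nontrivial O] : d.deg 1 = 0 := by
  have h := d.mul 1 1 one_ne_zero one_ne_zero
  rw [mul_one] at h
  omega

theorem exists_frac (x : F) : ∃ a b : O, b ≠ 0 ∧ x = algebraMap O F a / algebraMap O F b := by
  obtain ⟨a, b, hb, h⟩ := IsFractionRing.div_surjective (A := O) x
  exact ⟨a, b, nonZeroDivisors.ne_zero hb, h.symm⟩

/-- the numerator -/
noncomputable def nu (O : Type) {F : Type} [CommRing O] [IsDomain O] [Field F] [Algebra O F]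
    [IsFractionRing O F] (x : F) : O := (exists_frac (O := O) x).choose

/-- the denominator -/
noncomputable def de (O : Type) {F : Type} [CommRing O] [IsDomain O] [Field F] [Algebra O F]
    [IsFractionRing O F] (x : F) : O := (exists_frac (O := O) x).choose_spec.choose

theorem de_ne (x : F) : de O x ≠ 0 := (exists_frac (O := O) x).choose_spec.choose_spec.1

theorem frac_eq (x : F) : x = algebraMap O F (nu O x) / algebraMap O F (de O x) :=
  (exists_frac (O := O) x).choose_spec.choose_spec.2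

theorem am_ne {a : O} (ha : a ≠ 0) : algebraMap O F a ≠ 0 := by
  rwa [Ne, FaithfulSMul.algebraMap_eq_zero_iff]

theorem nu_ne {x : F} (hx : x ≠ 0) : nu O x ≠ 0 := by
  intro h
  apply hx
  rw [frac_eq (O := O) x, h, map_zero, zero_div]

/-- the degree of a fraction -/
noncomputable def DF (x : F) : ℤ := (d.deg (nu O x) : ℤ) - d.deg (de O x)

theorem DF_div {a b : O} (ha : a ≠ 0) (hb : b ≠ 0) :
    DF d (algebraMap O F a / algebraMap O F b) = (d.deg a : ℤ) - d.deg b := by
  obtain ⟨x, hx⟩ : ∃ x : F, x = algebraMap O F a / algebraMap O F b := ⟨_, rfl⟩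
  rw [← hx]
  have hx0 : x ≠ 0 := hx ▸ div_ne_zero (am_ne ha) (am_ne hb)
  have h1 := frac_eq (O := O) x
  have h2 : algebraMap O F (a * de O x) = algebraMap O F (nu O x * b) := by
    have h6 : algebraMap O F a / algebraMap O F b =
        algebraMap O F (nu O x) / algebraMap O F (de O x) := hx.symm.trans h1
    rw [div_eq_div_iff (am_ne hb) (am_ne (de_ne x))] at h6
    rw [map_mul, map_mul]
    exact h6
  have h3 : a * de O x = nu O x * b := IsFractionRing.injective O F h2
  have h4 := d.mul a (de O x) ha (de_ne x)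
  have h5 := d.mul (nu O x) b (nu_ne hx0) hb
  rw [h3, h5] at h4
  unfold DF
  omega

theorem DF_am {a : O} (ha : a ≠ 0) : DF d (algebraMap O F a) = d.deg a := by
  have h := DF_div (F := F) d ha one_ne_zero
  rw [map_one, div_one, d.one] at h
  simpa using h

theorem DF_mul {x y : F} (hx : x ≠ 0) (hy : y ≠ 0) : DF d (x * y) = DF d x + DF d y := by
  have e : x * y = algebraMap O F (nu O x * nu O y) / algebraMap O F (de O x * de O y) := by
    conv_lhs => rw [frac_eq (O := O) x, frac_eq (O := O) y]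
    rw [div_mul_div_comm, map_mul, map_mul]
  rw [e, DF_div d (mul_ne_zero (nu_ne hx) (nu_ne hy)) (mul_ne_zero (de_ne x) (de_ne y)),
    d.mul _ _ (nu_ne hx) (nu_ne hy), d.mul _ _ (de_ne x) (de_ne y)]
  unfold DF
  push_cast
  ring

theorem DF_add {x y : F} (hx : x ≠ 0) (hy : y ≠ 0) (hxy : x + y ≠ 0) :
    DF d (x + y) ≤ max (DF d x) (DF d y) := by
  have hdx := de_ne (O := O) x
  have hdy := de_ne (O := O) y
  have e : x + y = algebraMap O F (nu O x * de O y + nu O y * de O x) /
      algebraMap O F (de O x * de O y) := by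
    conv_lhs => rw [frac_eq (O := O) x, frac_eq (O := O) y]
    rw [div_add_div _ _ (am_ne hdx) (am_ne hdy), map_add, map_mul, map_mul, map_mul]
    congr 1
    ring
  have h0 : nu O x * de O y + nu O y * de O x ≠ 0 := by
    intro h
    apply hxy
    rw [e, h, map_zero, zero_div]
  have h1 := d.add _ _ (mul_ne_zero (nu_ne hx) hdy) (mul_ne_zero (nu_ne hy) hdx) h0
  rw [d.mul _ _ (nu_ne hx) hdy, d.mul _ _ (nu_ne hy) hdx] at h1
  rw [e, DF_div d h0 (mul_ne_zero hdx hdy), d.mul _ _ hdx hdy]
  unfold DF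
  omega

theorem DF_one : DF d (1 : F) = 0 := by
  have := DF_mul (F := F) d one_ne_zero one_ne_zero
  rw [mul_one] at this
  omega

theorem DF_neg {x : F} (hx : x ≠ 0) : DF d (-x) = DF d x := by
  have h0 : (-1 : F) ≠ 0 := neg_ne_zero.mpr one_ne_zero
  have h1 := DF_mul (F := F) d h0 h0
  rw [neg_mul_neg, mul_one, DF_one] at h1
  have h2 := DF_mul (F := F) d h0 hx
  rw [neg_one_mul] at h2
  omega

theorem DF_sub_le {x y : F} {c : ℤ} (hx : x ≠ 0 → DF d x ≤ c) (hy : y ≠ 0 → DF d y ≤ c)
    (h : x - y ≠ 0) : DF d (x - y) ≤ c := by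
  by_cases e1 : x = 0
  · subst e1
    have e2 : y ≠ 0 := by
      rintro rfl
      exact h (sub_zero _)
    rw [zero_sub, DF_neg d e2]
    exact hy e2
  · by_cases e2 : y = 0
    · subst e2
      rw [sub_zero]
      exact hx e1
    · rw [sub_eq_add_neg] at h ⊢
      refine (DF_add d e1 (neg_ne_zero.mpr e2) h).trans ?_
      rw [DF_neg d e2]
      exact max_le (hx e1) (hy e2)

/-- if all degrees are zero -/
theorem DF_zero (h : ∀ x : F, x ≠ 0 → DF d x = 0) {a : O} (ha : a ≠ 0) : d.deg a = 0 := by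
  have h1 := h _ (am_ne (F := F) ha)
  rw [DF_am d ha] at h1
  exact_mod_cast h1

/-- the normalized degree -/
theorem exists_Dg (h : ∃ x : F, x ≠ 0 ∧ DF d x ≠ 0) :
    ∃ (δ : Dg F) (e : ℤ), 0 < e ∧ ∀ x : F, x ≠ 0 → DF d x = e * δ.D x := by
  have h1 : DF d (1 : F) = 0 := by
    have := DF_mul (F := F) d one_ne_zero one_ne_zero
    rw [mul_one] at this
    omega
  let S : AddSubgroup ℤ :=
    { carrier := {n | ∃ x : F, x ≠ 0 ∧ DF d x = n}
      zero_mem' := ⟨1, one_ne_zero, h1⟩
      add_mem' := by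
        rintro _ _ ⟨x, hx, rfl⟩ ⟨y, hy, rfl⟩
        exact ⟨x * y, mul_ne_zero hx hy, DF_mul d hx hy⟩
      neg_mem' := by
        rintro _ ⟨x, hx, rfl⟩
        refine ⟨x⁻¹, inv_ne_zero hx, ?_⟩
        have := DF_mul d hx (inv_ne_zero hx)
        rw [mul_inv_cancel₀ hx, h1] at this
        omega }
  obtain ⟨e', he'⟩ := Int.subgroup_cyclic S
  -- a positive generator
  obtain ⟨e, he0, hdvd, x₀, hx₀, hx₀e⟩ : ∃ e : ℤ, 0 < e ∧ (∀ x : F, x ≠ 0 → e ∣ DF d x) ∧
      ∃ x₀ : F, x₀ ≠ 0 ∧ DF d x₀ = e := by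
    have hm : ∀ n : ℤ, n ∈ S ↔ e' ∣ n := by
      intro n
      rw [he', AddSubgroup.mem_closure_singleton]
      constructor
      · rintro ⟨k, rfl⟩
        exact ⟨k, by rw [smul_eq_mul]; ring⟩
      · rintro ⟨k, rfl⟩
        exact ⟨k, by rw [smul_eq_mul]; ring⟩
    have h0 : e' ≠ 0 := by
      rintro rfl
      obtain ⟨x, hx, hx'⟩ := h
      exact hx' (zero_dvd_iff.mp ((hm _).mp ⟨x, hx, rfl⟩))
    refine ⟨|e'|, abs_pos.mpr h0, fun x hx => ?_, ?_⟩
    · rw [abs_dvd]
      exact (hm _).mp ⟨x, hx, rfl⟩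
    · exact (hm |e'|).mpr ((dvd_abs e' e').mpr dvd_rfl)
  have hq : ∀ x : F, x ≠ 0 → DF d x = e * (DF d x / e) := fun x hx =>
    (Int.mul_ediv_cancel' (hdvd x hx)).symm
  refine ⟨⟨fun x => DF d x / e, ?_, ?_, x₀, hx₀, ?_⟩, e, he0, hq⟩
  · intro x y hx hy
    rw [DF_mul d hx hy]
    exact Int.add_ediv_of_dvd_left (hdvd x hx)
  · intro x y hx hy hxy
    have h2 := DF_add d hx hy hxy
    rcases max_cases (DF d x) (DF d y) with ⟨h3, _⟩ | ⟨h3, _⟩
    · rw [h3] at h2
      exact (Int.ediv_le_ediv he0 h2).trans (le_max_left _ _)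
    · rw [h3] at h2
      exact (Int.ediv_le_ediv he0 h2).trans (le_max_right _ _)
  · rw [hx₀e]
    exact Int.ediv_self he0.ne'

end frac

end Pool.Agent.W2helper34.GT
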