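import Pool.Agent.W2helper34.GT.Deg

/-!
# The Bruhat-Tits tree of `GL_2`
-/

set_option autoImplicit false

namespace Pool.Agent.W2helper34.GT

open SimpleGraph

/-- a graph with a level function such that every vertex has exactly one neighbour of smaller level, and
any two vertices have a common ancestor, is a tree -/
theorem isTree_of_levels {V : Type} [Nonempty V] (T : SimpleGraph V) (lam : V → ℤ) (par : V → V)
    (h1 : ∀ u v, T.Adj u v → lam v = lam u - 1 ∨ lam v = lam u + 1)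
    (h2 : ∀ v a b, T.Adj v a → T.Adj v b → lam a = lam v - 1 → lam b = lam v - 1 → a = b)
    (h3 : ∀ v, T.Adj v (par v))
    (h4 : ∀ u v, ∃ n m : ℕ, par^[n] u = par^[m] v) : T.IsTree := by
  classical
  have hr : ∀ (n : ℕ) (u : V), T.Reachable u (par^[n] u) := by
    intro n
    induction n with
    | zero => exact fun u => Reachable.refl u
    | succ n ih =>
      intro u
      rw [Function.iterate_succ_apply]
      exact (h3 u).reachable.trans (ih (par u))
  refine ⟨?_, ?_⟩
  · refine ⟨fun u v => ?_⟩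
    obtain ⟨n, m, h⟩ := h4 u v
    exact (hr n u).trans (h ▸ (hr m v).symm)
  · intro v c hc
    -- a vertex of maximal level on the cycle
    obtain ⟨u, hu, hmax⟩ := Finset.exists_max_image c.support.toFinset lam ⟨v, by simp⟩
    rw [List.mem_toFinset] at hu
    have hc' := hc.rotate hu
    have hsup : ∀ x ∈ (c.rotate u hu).support, x ∈ c.support := by
      intro x hx
      unfold Walk.rotate at hx
      rw [Walk.mem_support_append_iff] at hx
      rcases hx with hx | hx
      · exact c.support_dropUntil_subset_support hu hx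
      · exact c.support_takeUntil_subset_support hu hx
    have a1 := (c.rotate u hu).adj_snd hc'.not_nil
    have a2 := ((c.rotate u hu).adj_penultimate hc'.not_nil).symm
    have l1 := hmax _ (List.mem_toFinset.mpr (hsup _ ((c.rotate u hu).getVert_mem_support 1)))
    have l2 := hmax _ (List.mem_toFinset.mpr (hsup _
      ((c.rotate u hu).getVert_mem_support ((c.rotate u hu).length - 1))))
    refine hc'.snd_ne_penultimate (h2 u _ _ a1 a2 ?_ ?_)
    · rcases h1 _ _ a1 with h | h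
      · exact h
      · unfold Walk.snd at h
        omega
    · rcases h1 _ _ a2 with h | h
      · exact h
      · unfold Walk.penultimate at h
        omega

section tree

variable {F : Type} [Field F] (δ : Dg F)

/-- the vertices of the Bruhat-Tits tree -/
abbrev VV : Type := GF F ⧸ HH δ

/-- adjacency -/
def adj (u v : VV δ) : Prop := ∃ x z : GF F, A1 δ z ∧ u = (x : VV δ) ∧ v = ((x * z : GF F) : VV δ)

variable {δ}

theorem adj_mk {x y : GF F} : adj δ (x : VV δ) (y : VV δ) ↔ A1 δ (x⁻¹ * y) := by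
  constructor
  · rintro ⟨a, z, hz, h1, h2⟩
    rw [QuotientGroup.eq] at h1 h2
    have e : x⁻¹ * y = (x⁻¹ * a) * z * (y⁻¹ * (a * z))⁻¹ := by group
    rw [e]
    exact hz.congr h1 ((HH δ).inv_mem h2)
  · intro h
    exact ⟨x, x⁻¹ * y, h, rfl, by rw [mul_inv_cancel_left]⟩

theorem adj_symm {u v : VV δ} (h : adj δ u v) : adj δ v u := by
  obtain ⟨x, z, hz, rfl, rfl⟩ := h
  exact ⟨x * z, z⁻¹, hz.inv, rfl, by rw [mul_inv_cancel_right]⟩

variable (δ)

/-- the Bruhat-Tits tree -/
def TT : SimpleGraph (VV δ) where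
  Adj := adj δ
  symm := ⟨fun _ _ h => adj_symm h⟩
  loopless := ⟨by
    intro v h
    induction v using QuotientGroup.induction_on with
    | H x =>
      rw [adj_mk, inv_mul_cancel] at h
      exact not_A1_H h (HH δ).one_mem⟩

/-- the level of a vertex -/
noncomputable def lam : VV δ → ℤ := Quotient.lift (lv δ) (by
  intro a b h
  have h' : a⁻¹ * b ∈ HH δ := QuotientGroup.leftRel_apply.mp h
  have := lv_H a h'
  rw [mul_inv_cancel_left] at this
  exact this.symm)

theorem lam_mk (x : GF F) : lam δ (x : VV δ) = lv δ x := rfl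

theorem exists_par (v : VV δ) : ∃ w, adj δ v w ∧ lam δ w = lam δ v - 1 := by
  induction v using QuotientGroup.induction_on with
  | H x =>
    obtain ⟨z, hz, h⟩ := parent_exists (δ := δ) x
    exact ⟨((x * z : GF F) : VV δ), ⟨x, z, hz, rfl, rfl⟩, h⟩

/-- the parent -/
noncomputable def par (v : VV δ) : VV δ := (exists_par δ v).choose

theorem par_adj (v : VV δ) : adj δ v (par δ v) := (exists_par δ v).choose_spec.1

theorem par_lam (v : VV δ) : lam δ (par δ v) = lam δ v - 1 := (exists_par δ v).choose_spec.2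

variable {δ}

theorem adj_lam {u v : VV δ} (h : adj δ u v) : lam δ v = lam δ u - 1 ∨ lam δ v = lam δ u + 1 := by
  obtain ⟨x, z, hz, rfl, rfl⟩ := h
  exact hz.lv x

theorem par_unique {v a b : VV δ} (ha : adj δ v a) (hb : adj δ v b)
    (h1 : lam δ a = lam δ v - 1) (h2 : lam δ b = lam δ v - 1) : a = b := by
  induction v using QuotientGroup.induction_on with
  | H x =>
  induction a using QuotientGroup.induction_on with
  | H y =>
  induction b using QuotientGroup.induction_on with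
  | H z =>
    rw [adj_mk] at ha hb
    rw [lam_mk, lam_mk] at h1 h2
    rw [QuotientGroup.eq]
    have h3 := parent_unique (g := x) ha hb (by rw [mul_inv_cancel_left]; exact h1)
      (by rw [mul_inv_cancel_left]; exact h2)
    have e : (x⁻¹ * y)⁻¹ * (x⁻¹ * z) = y⁻¹ * z := by group
    rwa [e] at h3

/-- the parent of a vertex given by an upper triangular matrix with last row `(0, 1)` -/
theorem par_up {π : F} (hπ : π ≠ 0) (hπ1 : δ.D π = 1) (p a : F) (hp : p * 1 - a * 0 ≠ 0)
    (hp' : (p * π) * 1 - a * 0 ≠ 0) :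
    par δ (mk p a 0 1 hp : VV δ) = (mk (p * π) a 0 1 hp' : VV δ) := by
  have hpz : p ≠ 0 := by simpa using hp
  have e : (mk p a 0 1 hp)⁻¹ * mk (p * π) a 0 1 hp' =
      mk π 0 0 1 (by simpa using hπ) := by
    rw [inv_mul_eq_iff_eq_mul]
    apply Units.ext
    rw [Units.val_mul, mk_val, mk_val, mk_val, Matrix.mul_fin_two]
    simp
  have hA : A1 δ (mk π 0 0 1 (by simpa using hπ)) := by
    have e1 : dd δ (mk π 0 0 1 (by simpa using hπ)) = 1 := by
      rw [dd_mk, show π * 1 - 0 * 0 = π by ring, hπ1]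
    refine ⟨?_, by rw [e1]; rfl⟩
    intro i j
    rw [e1]
    show δ.L ((mk π 0 0 1 _ : Matrix (Fin 2) (Fin 2) F) i j) _
    rw [mk_val]
    fin_cases i <;> fin_cases j
    · intro _
      show 2 * δ.D π ≤ _
      rw [hπ1]; omega
    · exact Dg.L.zero _
    · exact Dg.L.zero _
    · intro _
      show 2 * δ.D 1 ≤ _
      rw [δ.one]; omega
  refine par_unique (par_adj δ _) ?_ (par_lam δ _) ?_
  · rw [adj_mk, e]
    exact hA
  · have rrm : ∀ (q b : F) (h : q * 1 - b * 0 ≠ 0), lv δ (mk q b 0 1 h) = - δ.D q := by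
      intro q b h
      unfold lv rr
      rw [dd_mk, show q * 1 - b * 0 = q by ring]
      have : (mk q b 0 1 h) 1 0 = 0 := rfl
      rw [if_pos this]
      have : (mk q b 0 1 h) 1 1 = 1 := rfl
      rw [this, δ.one]
      omega
    rw [lam_mk, lam_mk, rrm, rrm, δ.mul _ _ hpz hπ, hπ1]
    omega

theorem par_iter {π : F} (hπ : π ≠ 0) (hπ1 : δ.D π = 1) (a : F) (n : ℕ) : ∀ (p : F) (hp : p ≠ 0),
    (par δ)^[n] (mk p a 0 1 (by simpa using hp) : VV δ) =
      (mk (p * π ^ n) a 0 1 (by simpa using mul_ne_zero hp (pow_ne_zero n hπ)) : VV δ) := by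
  induction n with
  | zero =>
    intro p hp
    simp
  | succ n ih =>
    intro p hp
    rw [Function.iterate_succ_apply, par_up hπ hπ1 p a _ (by simpa using mul_ne_zero hp hπ),
      ih (p * π) (mul_ne_zero hp hπ)]
    have e : p * π * π ^ n = p * π ^ (n + 1) := by ring
    simp only [e]

/-- every vertex is given by an upper triangular matrix with last row `(0, 1)` -/
theorem exists_up (v : VV δ) : ∃ (p a : F) (hp : p ≠ 0),
    v = (mk p a 0 1 (by simpa using hp) : VV δ) := by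
  induction v using QuotientGroup.induction_on with
  | H x =>
    obtain ⟨k, hk, hk0⟩ := exists_k (δ := δ) x
    have e1 : (x : VV δ) = ((x * k : GF F) : VV δ) := by
      rw [QuotientGroup.eq, inv_mul_cancel_left]
      exact hk
    rw [e1]
    generalize x * k = y at *
    have hd := det_ne y
    rw [Matrix.det_fin_two] at hd
    have h0 : (y : Matrix (Fin 2) (Fin 2) F) 1 0 = 0 := hk0
    rw [h0, mul_zero, sub_zero] at hd
    have ha := left_ne_zero_of_mul hd
    have hc := right_ne_zero_of_mul hd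
    refine ⟨(y : Matrix (Fin 2) (Fin 2) F) 0 0 / (y : Matrix (Fin 2) (Fin 2) F) 1 1,
      (y : Matrix (Fin 2) (Fin 2) F) 0 1 / (y : Matrix (Fin 2) (Fin 2) F) 1 1,
      div_ne_zero ha hc, ?_⟩
    rw [QuotientGroup.eq]
    have hs : (y : Matrix (Fin 2) (Fin 2) F) 1 1 * (y : Matrix (Fin 2) (Fin 2) F) 1 1 - 0 * 0 ≠ 0 := by
      simpa using hc
    -- `y = (upper triangular) * scalar`
    have e : y⁻¹ * mk ((y : Matrix (Fin 2) (Fin 2) F) 0 0 / (y : Matrix (Fin 2) (Fin 2) F) 1 1)
        ((y : Matrix (Fin 2) (Fin 2) F) 0 1 / (y : Matrix (Fin 2) (Fin 2) F) 1 1) 0 1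
        (by simpa using div_ne_zero ha hc) =
        (mk ((y : Matrix (Fin 2) (Fin 2) F) 1 1) 0 0 ((y : Matrix (Fin 2) (Fin 2) F) 1 1) hs)⁻¹ := by
      rw [eq_inv_iff_mul_eq_one, mul_assoc, inv_mul_eq_one]
      apply Units.ext
      rw [Units.val_mul, mk_val, mk_val, Matrix.mul_fin_two]
      ext i j
      fin_cases i <;> fin_cases j
      · show (y : Matrix (Fin 2) (Fin 2) F) 0 0 = _
        simp [div_mul_cancel₀ _ hc]
      · show (y : Matrix (Fin 2) (Fin 2) F) 0 1 = _
        simp [div_mul_cancel₀ _ hc]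
      · show (y : Matrix (Fin 2) (Fin 2) F) 1 0 = _
        simp [h0]
      · show (y : Matrix (Fin 2) (Fin 2) F) 1 1 = _
        simp
    rw [e]
    refine (HH δ).inv_mem ?_
    intro i j
    rw [dd_mk]
    have e2 : δ.D ((y : Matrix (Fin 2) (Fin 2) F) 1 1 * (y : Matrix (Fin 2) (Fin 2) F) 1 1 - 0 * 0) =
        2 * δ.D ((y : Matrix (Fin 2) (Fin 2) F) 1 1) := by
      rw [mul_zero, sub_zero, δ.mul _ _ hc hc]
      omega
    rw [e2]
    show δ.L ((mk _ 0 0 _ hs : Matrix (Fin 2) (Fin 2) F) i j) _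
    rw [mk_val]
    have hL : δ.L ((y : Matrix (Fin 2) (Fin 2) F) 1 1)
        (2 * δ.D ((y : Matrix (Fin 2) (Fin 2) F) 1 1) + 0) := (Dg.L.self _).mono (by omega)
    fin_cases i <;> fin_cases j
    · exact hL
    · exact Dg.L.zero _
    · exact Dg.L.zero _
    · exact hL

theorem same_ball {P Q a b : F} {N : ℤ} (hP : P * 1 - a * 0 ≠ 0) (hQ : Q * 1 - b * 0 ≠ 0)
    (dP : δ.D P = N) (dQ : δ.D Q = N) (hN : b - a ≠ 0 → δ.D (b - a) ≤ N) :
    (mk P a 0 1 hP : VV δ) = (mk Q b 0 1 hQ : VV δ) := by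
  rw [QuotientGroup.eq]
  have hP0 : P ≠ 0 := by simpa using hP
  have hQ0 : Q ≠ 0 := by simpa using hQ
  have hd : (Q / P) * 1 - ((b - a) / P) * 0 ≠ 0 := by
    simpa using div_ne_zero hQ0 hP0
  have e : (mk P a 0 1 hP)⁻¹ * mk Q b 0 1 hQ = mk (Q / P) ((b - a) / P) 0 1 hd := by
    rw [inv_mul_eq_iff_eq_mul]
    apply Units.ext
    rw [Units.val_mul, mk_val, mk_val, mk_val, Matrix.mul_fin_two]
    simp [mul_div_cancel₀ _ hP0]
  rw [e]
  intro i j
  rw [dd_mk]
  have e2 : δ.D ((Q / P) * 1 - ((b - a) / P) * 0) = 0 := by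
    rw [mul_one, mul_zero, sub_zero, div_eq_mul_inv, δ.mul _ _ hQ0 (inv_ne_zero hP0),
      δ.inv _ hP0, dP, dQ]
    omega
  rw [e2]
  show δ.L ((mk _ _ 0 1 hd : Matrix (Fin 2) (Fin 2) F) i j) _
  rw [mk_val]
  fin_cases i <;> fin_cases j
  · intro _
    show 2 * δ.D (Q / P) ≤ _
    rw [div_eq_mul_inv, δ.mul _ _ hQ0 (inv_ne_zero hP0), δ.inv _ hP0, dP, dQ]
    omega
  · intro h
    have h' : b - a ≠ 0 := by
      intro h0
      apply h
      show (b - a) / P = 0
      rw [h0, zero_div]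
    show 2 * δ.D ((b - a) / P) ≤ _
    rw [div_eq_mul_inv, δ.mul _ _ h' (inv_ne_zero hP0), δ.inv _ hP0, dP]
    have := hN h'
    omega
  · exact Dg.L.zero _
  · intro _
    show 2 * δ.D 1 ≤ _
    rw [δ.one]; omega

theorem common (u v : VV δ) : ∃ n m : ℕ, (par δ)^[n] u = (par δ)^[m] v := by
  obtain ⟨π, hπ, hπ1⟩ := δ.pi
  obtain ⟨p, a, hp, rfl⟩ := exists_up u
  obtain ⟨q, b, hq, rfl⟩ := exists_up v
  -- a common degree
  obtain ⟨N, hN1, hN2, hN3⟩ : ∃ N : ℤ, δ.D p ≤ N ∧ δ.D q ≤ N ∧ (b - a ≠ 0 → δ.D (b - a) ≤ N) :=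
    ⟨max (max (δ.D p) (δ.D q)) (δ.D (b - a)), by simp, by simp, fun _ => by simp⟩
  refine ⟨(N - δ.D p).toNat, (N - δ.D q).toNat, ?_⟩
  have hpow : ∀ n : ℕ, δ.D (π ^ n) = n := by
    intro n
    induction n with
    | zero => simp [δ.one]
    | succ n ih =>
      rw [pow_succ, δ.mul _ _ (pow_ne_zero n hπ) hπ, ih, hπ1]
      push_cast; ring
  rw [par_iter hπ hπ1 a _ p hp, par_iter hπ hπ1 b _ q hq]
  refine same_ball _ _ ?_ ?_ hN3
  · rw [δ.mul _ _ hp (pow_ne_zero _ hπ), hpow]
    omega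
  · rw [δ.mul _ _ hq (pow_ne_zero _ hπ), hpow]
    omega

variable (δ)

/-- **the Bruhat-Tits tree is a tree** -/
theorem isTree : (TT δ).IsTree :=
  isTree_of_levels (TT δ) (lam δ) (par δ) (fun _ _ h => adj_lam h)
    (fun _ _ _ h1 h2 h3 h4 => par_unique h1 h2 h3 h4) (par_adj δ) common

theorem TT_act (g : GF F) (u v : VV δ) (h : (TT δ).Adj u v) : (TT δ).Adj (g • u) (g • v) := by
  obtain ⟨x, z, hz, rfl, rfl⟩ := h
  exact ⟨g * x, z, hz, rfl, by rw [mul_assoc]; rfl⟩

end tree

end Pool.Agent.W2helper34.GT
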